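import Mathlib

/-! Rouche's theorem for polynomials (copied from the starting file `Pool/Agent/Helper550/Semi.lean`). -/

set_option autoImplicit false

namespace Pool.Agent.Q42.Rouche

open Polynomial Complex Metric
open scoped Real

/-- number of zeros in the open disc of radius `r` -/
noncomputable def nz (r : ℝ) (f : ℂ[X]) : ℕ := by
  classical
  exact (f.roots.filter (fun z => ‖z‖ < r)).card

theorem integral_inv_out {r : ℝ} {w : ℂ} (hr : 0 < r) (hw : r < ‖w‖) :
    (∮ z in C(0, r), (z - w)⁻¹) = 0 := by
  apply DiffContOnCl.circleIntegral_eq_zero hr.le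
  have hne : ∀ z ∈ closedBall (0 : ℂ) r, z - w ≠ 0 := by
    intro z hz h
    rw [sub_eq_zero] at h
    rw [mem_closedBall_zero_iff, h] at hz
    linarith
  apply DifferentiableOn.diffContOnCl
  intro z hz
  rw [closure_ball (0 : ℂ) hr.ne'] at hz
  exact ((differentiableAt_id.sub_const w).inv (hne z hz)).differentiableWithinAt

theorem circleIntegrable_inv {r : ℝ} {w : ℂ} (hr : 0 < r) (hw : ‖w‖ ≠ r) :
    CircleIntegrable (fun z => (z - w)⁻¹) 0 r := by
  apply ContinuousOn.circleIntegrable hr.le
  apply ContinuousOn.inv₀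
  · fun_prop
  · intro z hz h
    rw [sub_eq_zero] at h
    rw [mem_sphere_zero_iff_norm, h] at hz
    exact hw hz

theorem integral_multiset {r : ℝ} (hr : 0 < r) (s : Multiset ℂ) (hs : ∀ w ∈ s, ‖w‖ ≠ r) :
    CircleIntegrable (fun z => (s.map (fun w => (z - w)⁻¹)).sum) 0 r ∧
    (∮ z in C(0, r), (s.map (fun w => (z - w)⁻¹)).sum) =
      (2 * π * I) * ((by classical exact (s.filter (fun z => ‖z‖ < r)).card : ℕ) : ℂ) := by
  classical
  induction s using Multiset.induction_on with
  | empty =>
    constructor
    · simp only [Multiset.map_zero, Multiset.sum_zero]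
      exact circleIntegrable_const 0 0 r
    · simp [circleIntegral]
  | cons a s ih =>
    obtain ⟨ih1, ih2⟩ := ih (fun w hw => hs w (Multiset.mem_cons_of_mem hw))
    have ha := hs a (Multiset.mem_cons_self a s)
    have hai := circleIntegrable_inv hr ha
    simp only [Multiset.map_cons, Multiset.sum_cons]
    refine ⟨hai.add ih1, ?_⟩
    rw [circleIntegral.integral_add hai ih1, ih2]
    by_cases hlt : ‖a‖ < r
    · rw [Multiset.filter_cons_of_pos (p := fun z : ℂ => ‖z‖ < r) s hlt, Multiset.card_cons,
        circleIntegral.integral_sub_inv_of_mem_ball (by rw [mem_ball_zero_iff]; exact hlt)]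
      push_cast
      ring
    · rw [Multiset.filter_cons_of_neg (p := fun z : ℂ => ‖z‖ < r) s hlt, integral_inv_out hr (lt_of_le_of_ne (not_lt.mp hlt) (Ne.symm ha)),
        zero_add]

theorem logDeriv_eq {f : ℂ[X]} {z : ℂ} (hz : f.eval z ≠ 0) :
    f.derivative.eval z / f.eval z = (f.roots.map (fun w => (z - w)⁻¹)).sum := by
  rw [(IsAlgClosed.splits f).eval_derivative_div_eval_of_ne_zero hz]
  simp only [one_div]

theorem integral_logDeriv {r : ℝ} (hr : 0 < r) {f : ℂ[X]} (hf : ∀ z : ℂ, ‖z‖ = r → f.eval z ≠ 0) :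
    CircleIntegrable (fun z => f.derivative.eval z / f.eval z) 0 r ∧
    (∮ z in C(0, r), f.derivative.eval z / f.eval z) = (2 * π * I) * (nz r f : ℂ) := by
  classical
  have hs : ∀ w ∈ f.roots, ‖w‖ ≠ r := by
    intro w hw hwr
    have hf0 : f ≠ 0 := by
      rintro rfl
      simp at hw
    exact hf w hwr ((mem_roots hf0).mp hw)
  obtain ⟨h1, h2⟩ := integral_multiset hr f.roots hs
  constructor
  · apply ContinuousOn.circleIntegrable hr.le
    apply ContinuousOn.div
    · fun_prop
    · fun_prop
    · intro z hz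
      exact hf z (mem_sphere_zero_iff_norm.mp hz)
  · have h3 : (∮ z in C(0, r), f.derivative.eval z / f.eval z) =
        ∮ z in C(0, r), (f.roots.map (fun w => (z - w)⁻¹)).sum := by
      apply circleIntegral.integral_congr hr.le
      intro z hz
      exact logDeriv_eq (hf z (mem_sphere_zero_iff_norm.mp hz))
    rw [h3, h2]
    rfl

/-- Rouche's theorem for polynomials on circles centred at the origin. -/
theorem rouche {r : ℝ} (hr : 0 < r) {f g : ℂ[X]}
    (h : ∀ z : ℂ, ‖z‖ = r → ‖f.eval z - g.eval z‖ < ‖f.eval z‖) : nz r f = nz r g := by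
  have hf : ∀ z : ℂ, ‖z‖ = r → f.eval z ≠ 0 := by
    intro z hz h0
    have := h z hz
    rw [h0, norm_zero] at this
    exact absurd this (not_lt.mpr (norm_nonneg _))
  have hg : ∀ z : ℂ, ‖z‖ = r → g.eval z ≠ 0 := by
    intro z hz h0
    have := h z hz
    rw [h0, sub_zero] at this
    exact lt_irrefl _ this
  obtain ⟨f1, f2⟩ := integral_logDeriv hr hf
  obtain ⟨g1, g2⟩ := integral_logDeriv hr hg
  have h0 : (∮ z in C(0, r), (g.derivative.eval z / g.eval z - f.derivative.eval z / f.eval z)) = 0 := by
    apply circleIntegral.integral_eq_zero_of_hasDerivWithinAt (f := fun z => Complex.log (g.eval z / f.eval z)) hr.le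
    intro z hz
    have hz' : ‖z‖ = r := mem_sphere_zero_iff_norm.mp hz
    have hfz := hf z hz'
    have hgz := hg z hz'
    have hslit : g.eval z / f.eval z ∈ Complex.slitPlane := by
      have h1 : ‖g.eval z / f.eval z - 1‖ < 1 := by
        have h2 : g.eval z / f.eval z - 1 = (g.eval z - f.eval z) / f.eval z := by
          field_simp
        rw [h2, norm_div, div_lt_one (norm_pos_iff.mpr hfz), norm_sub_rev]
        exact h z hz'
      have h3 : 0 < (g.eval z / f.eval z).re := by
        have h4 := (abs_le.mp ((Complex.abs_re_le_norm (g.eval z / f.eval z - 1)).trans h1.le)).1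
        have h5 : |(g.eval z / f.eval z - 1).re| < 1 := (Complex.abs_re_le_norm _).trans_lt h1
        rw [Complex.sub_re, Complex.one_re] at h5
        have h6 := (abs_lt.mp h5).1
        linarith
      exact Or.inl h3
    have hd1 : HasDerivAt (fun w => g.eval w / f.eval w)
        ((g.derivative.eval z * f.eval z - g.eval z * f.derivative.eval z) / (f.eval z) ^ 2) z :=
      (g.hasDerivAt z).div (f.hasDerivAt z) hfz
    have hd2 := hd1.clog hslit
    have h7 : g.derivative.eval z / g.eval z - f.derivative.eval z / f.eval z =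
        (g.derivative.eval z * f.eval z - g.eval z * f.derivative.eval z) / (f.eval z) ^ 2 /
          (g.eval z / f.eval z) := by
      field_simp
    rw [h7]
    exact hd2.hasDerivWithinAt
  rw [circleIntegral.integral_sub g1 f1, f2, g2, ← mul_sub, mul_eq_zero] at h0
  have h8 : (2 * π * I : ℂ) ≠ 0 := by
    simp [Real.pi_ne_zero]
  have h9 := h0.resolve_left h8
  rw [sub_eq_zero] at h9
  exact_mod_cast h9.symm

end Pool.Agent.Q42.Rouche
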