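import Mathlib
import Pool.Agent.Q42.Rouche

/-!
# Polynomials with unimodular coefficients: the minimum modulus on the unit circle

Let `c 0, c 1, ...` be complex numbers of modulus one and `P N = ∑_{n < N} c n X^n`. If `|P N| > 1` on the
unit circle for all `N ≥ N₀`, then by Rouche's theorem the number `w` of zeros of `P N` in the open unit disc
does not depend on `N ≥ N₀`. All zeros have modulus at least `1/2` and the product of their moduli is `1`,
so the Mahler measure of `P N` is at most `2^w`, and it is at least `min |P N|`.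
-/

set_option autoImplicit false

open Polynomial Filter

namespace Pool.Agent.Q42.Flat

/-- the polynomial with coefficients `c 0, ..., c (N - 1)` -/
noncomputable def P (c : ℕ → ℂ) (N : ℕ) : ℂ[X] := ∑ n ∈ Finset.range N, C (c n) * X ^ n

lemma P_succ (c : ℕ → ℂ) (N : ℕ) : P c (N + 1) = P c N + C (c N) * X ^ N :=
  Finset.sum_range_succ _ _

lemma eval_P (c : ℕ → ℂ) (N : ℕ) (z : ℂ) : (P c N).eval z = ∑ n ∈ Finset.range N, c n * z ^ n := by
  rw [P, eval_finsetSum]
  simp

lemma coeff_P (c : ℕ → ℂ) (N k : ℕ) : (P c N).coeff k = if k < N then c k else 0 := by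
  rw [P, finsetSum_coeff]
  simp only [coeff_C_mul, coeff_X_pow, mul_ite, mul_one, mul_zero, Finset.sum_ite_eq,
    Finset.mem_range]

variable {c : ℕ → ℂ} (hc : ∀ n, ‖c n‖ = 1)
include hc

lemma natDegree_P (N : ℕ) : (P c (N + 1)).natDegree = N := by
  apply natDegree_eq_of_le_of_coeff_ne_zero
  · rw [natDegree_le_iff_coeff_eq_zero]
    intro k hk
    rw [coeff_P, if_neg (by omega)]
  · rw [coeff_P, if_pos (by omega)]
    intro h
    have := hc N
    rw [h, norm_zero] at this
    exact zero_ne_one this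

lemma lead_P (N : ℕ) : ‖(P c (N + 1)).leadingCoeff‖ = 1 := by
  rw [leadingCoeff, natDegree_P hc, coeff_P, if_pos (by omega)]
  exact hc N

lemma P_ne_zero (N : ℕ) : P c (N + 1) ≠ 0 := by
  intro h
  have := lead_P hc N
  rw [h, leadingCoeff_zero, norm_zero] at this
  exact zero_ne_one this

/-- the zeros have modulus at least `1/2` -/
lemma half_le_norm {N : ℕ} {a : ℂ} (ha : a ∈ (P c (N + 1)).roots) : 1 / 2 ≤ ‖a‖ := by
  by_contra hlt
  push Not at hlt
  have h0 : (P c (N + 1)).eval a = 0 := (mem_roots (P_ne_zero hc N)).1 ha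
  rw [eval_P, Finset.sum_range_succ'] at h0
  have h1 : ‖∑ n ∈ Finset.range N, c (n + 1) * a ^ (n + 1)‖ = 1 := by
    have h2 : ∑ n ∈ Finset.range N, c (n + 1) * a ^ (n + 1) = -(c 0 * a ^ 0) := by
      linear_combination h0
    rw [h2, norm_neg, pow_zero, mul_one, hc]
  have h2 : ‖∑ n ∈ Finset.range N, c (n + 1) * a ^ (n + 1)‖ ≤
      ∑ n ∈ Finset.range N, ‖a‖ ^ (n + 1) := by
    refine (norm_sum_le _ _).trans (le_of_eq ?_)
    apply Finset.sum_congr rfl
    intro n _
    rw [norm_mul, norm_pow, hc, one_mul]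
  have h3 : (∑ n ∈ Finset.range N, ‖a‖ ^ (n + 1)) * (1 - ‖a‖) ≤ ‖a‖ := by
    have h4 : ∑ n ∈ Finset.range N, ‖a‖ ^ (n + 1) = ‖a‖ * ∑ n ∈ Finset.range N, ‖a‖ ^ n := by
      rw [Finset.mul_sum]
      apply Finset.sum_congr rfl
      intro n _
      ring
    have h5 := geom_sum_mul_neg ‖a‖ N
    rw [h4, mul_assoc, h5]
    have h6 : 0 ≤ ‖a‖ ^ N := by positivity
    have h7 : 0 ≤ ‖a‖ := norm_nonneg a
    nlinarith
  rw [h1] at h2
  have h7 : 0 ≤ ‖a‖ := norm_nonneg a
  nlinarith

/-- Mahler measure and number of zeros in the unit disc -/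
lemma mahler_le (N : ℕ) :
    (P c (N + 1)).mahlerMeasure ≤ 2 ^ (Pool.Agent.Q42.Rouche.nz 1 (P c (N + 1))) := by
  classical
  rw [mahlerMeasure_eq_leadingCoeff_mul_prod_roots, lead_P hc, one_mul]
  have hprod : ((P c (N + 1)).roots.map (fun a => ‖a‖)).prod = 1 := by
    have h1 := (IsAlgClosed.splits (P c (N + 1))).coeff_zero_eq_leadingCoeff_mul_prod_roots
    have h2 := congrArg (fun z : ℂ => ‖z‖) h1
    beta_reduce at h2
    rw [norm_mul, norm_mul, lead_P hc, norm_pow, norm_neg, norm_one, one_pow, one_mul, one_mul,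
      coeff_P, if_pos (by omega), hc] at h2
    rw [h2]
    exact (map_multiset_prod (normHom : ℂ →*₀ ℝ) _).symm
  have hroots : ∀ a ∈ (P c (N + 1)).roots, 1 / 2 ≤ ‖a‖ := fun a ha => half_le_norm hc ha
  have key : ∀ s : Multiset ℂ, (∀ a ∈ s, 1 / 2 ≤ ‖a‖) → (s.map (fun a => max 1 ‖a‖)).prod ≤
      (s.map (fun a => ‖a‖)).prod * 2 ^ (s.filter (fun a => ‖a‖ < 1)).card := by
    intro s
    induction s using Multiset.induction_on with
    | empty => intro _; simp
    | cons a s ih =>
      intro hs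
      have h1 := ih (fun b hb => hs b (Multiset.mem_cons_of_mem hb))
      have ha := hs a (Multiset.mem_cons_self a s)
      have hp0 : 0 ≤ (s.map (fun a => max 1 ‖a‖)).prod := by
        apply Multiset.prod_nonneg
        intro x hx
        rw [Multiset.mem_map] at hx
        obtain ⟨b, -, rfl⟩ := hx
        exact le_max_of_le_left zero_le_one
      rw [Multiset.map_cons, Multiset.map_cons, Multiset.prod_cons, Multiset.prod_cons]
      by_cases hlt : ‖a‖ < 1
      · rw [Multiset.filter_cons_of_pos s hlt, Multiset.card_cons, pow_succ, max_eq_left hlt.le,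
          one_mul]
        calc _ ≤ 1 * ((s.map (fun a => ‖a‖)).prod * 2 ^ (s.filter (fun a => ‖a‖ < 1)).card) := by
              rw [one_mul]; exact h1
          _ ≤ (‖a‖ * 2) * ((s.map (fun a => ‖a‖)).prod *
              2 ^ (s.filter (fun a => ‖a‖ < 1)).card) := by
              apply mul_le_mul_of_nonneg_right (by linarith) (hp0.trans h1)
          _ = _ := by ring
      · rw [Multiset.filter_cons_of_neg s hlt, max_eq_right (not_lt.1 hlt), mul_assoc]
        exact mul_le_mul_of_nonneg_left h1 (norm_nonneg a)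
  have h3 := key _ hroots
  rw [hprod, one_mul] at h3
  convert h3 using 2
  unfold Pool.Agent.Q42.Rouche.nz
  congr

/-- a lower bound on the circle is a lower bound of the Mahler measure -/
lemma le_mahler {N : ℕ} {m : ℝ} (hm : 0 < m) (h : ∀ z : ℂ, ‖z‖ = 1 → m ≤ ‖(P c (N + 1)).eval z‖) :
    m ≤ (P c (N + 1)).mahlerMeasure := by
  rw [mahlerMeasure, if_pos (P_ne_zero hc N), logMahlerMeasure_def]
  have hint : CircleIntegrable (fun z => Real.log ‖(P c (N + 1)).eval z‖) 0 1 := by
    apply ContinuousOn.circleIntegrable zero_le_one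
    intro z hz
    rw [mem_sphere_zero_iff_norm] at hz
    have h1 := h z hz
    apply ContinuousAt.continuousWithinAt
    apply ContinuousAt.log
    · fun_prop
    · intro h0
      rw [h0] at h1
      linarith
  have h1 : Real.log m ≤ Real.circleAverage (fun z => Real.log ‖(P c (N + 1)).eval z‖) 0 1 := by
    have h2 : Real.log m = Real.circleAverage (fun _ : ℂ => Real.log m) 0 1 :=
      (Real.circleAverage_const _ _ _).symm
    rw [h2]
    apply Real.circleAverage_mono (circleIntegrable_const _ _ _) hint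
    intro z hz
    rw [abs_one, mem_sphere_zero_iff_norm] at hz
    exact Real.log_le_log hm (h z hz)
  calc m = Real.exp (Real.log m) := (Real.exp_log hm).symm
    _ ≤ _ := Real.exp_le_exp.2 h1

/-- if `|P N| > 1` on the circle for all `N ≥ N₀`, the number of zeros in the disc is constant -/
lemma nz_const {N₀ : ℕ} (h : ∀ N, N₀ ≤ N → ∀ z : ℂ, ‖z‖ = 1 → 1 < ‖(P c N).eval z‖) :
    ∀ N, N₀ ≤ N → Pool.Agent.Q42.Rouche.nz 1 (P c N) = Pool.Agent.Q42.Rouche.nz 1 (P c N₀) := by
  intro N hN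
  induction N, hN using Nat.le_induction with
  | base => rfl
  | succ N hN ih =>
    rw [← ih]
    symm
    apply Pool.Agent.Q42.Rouche.rouche one_pos
    intro z hz
    rw [P_succ, eval_add, sub_add_cancel_left, norm_neg, eval_mul, eval_C, eval_pow, eval_X,
      norm_mul, norm_pow, hz, hc, one_pow, mul_one]
    exact h N hN z hz

/-- **Main lemma.** There is `K` such that for infinitely many `N` the polynomial `P N` has modulus at
most `K` somewhere on the unit circle. -/
theorem exists_bound : ∃ K : ℝ, ∃ᶠ N : ℕ in atTop, ∃ z : ℂ, ‖z‖ = 1 ∧ ‖(P c N).eval z‖ ≤ K := by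
  by_cases h1 : ∃ᶠ N : ℕ in atTop, ∃ z : ℂ, ‖z‖ = 1 ∧ ‖(P c N).eval z‖ ≤ 1
  · exact ⟨1, h1⟩
  rw [not_frequently, eventually_atTop] at h1
  obtain ⟨N₀, hN₀⟩ := h1
  have h2 : ∀ N, N₀ ≤ N → ∀ z : ℂ, ‖z‖ = 1 → 1 < ‖(P c N).eval z‖ := by
    intro N hN z hz
    have := hN₀ N hN
    push Not at this
    exact this z hz
  have h3 := nz_const hc h2
  refine ⟨2 ^ (Pool.Agent.Q42.Rouche.nz 1 (P c N₀)) , ?_⟩
  apply Eventually.frequently
  filter_upwards [eventually_ge_atTop (N₀ + 1)] with N hN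
  obtain ⟨M, rfl⟩ : ∃ M, N = M + 1 := ⟨N - 1, by omega⟩
  by_contra hcon
  push Not at hcon
  have h4 := mahler_le hc M
  rw [h3 (M + 1) (by omega)] at h4
  -- the minimum on the circle is attained
  obtain ⟨z₀, hz₀, hmin⟩ : ∃ z₀ : ℂ, ‖z₀‖ = 1 ∧ ∀ z : ℂ, ‖z‖ = 1 →
      ‖(P c (M + 1)).eval z₀‖ ≤ ‖(P c (M + 1)).eval z‖ := by
    have hcomp : IsCompact (Metric.sphere (0 : ℂ) 1) := isCompact_sphere 0 1
    obtain ⟨z₀, hz₀, h5⟩ := hcomp.exists_isMinOn ⟨1, by simp⟩
      (f := fun z => ‖(P c (M + 1)).eval z‖) (by fun_prop)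
    refine ⟨z₀, by simpa using hz₀, fun z hz => ?_⟩
    exact h5 (by simpa using hz)
  have h5 := le_mahler hc (N := M) (m := ‖(P c (M + 1)).eval z₀‖)
    (by have := hcon z₀ hz₀
        have h6 : (0 : ℝ) < 2 ^ (Pool.Agent.Q42.Rouche.nz 1 (P c N₀)) := by positivity
        linarith) hmin
  have h6 := hcon z₀ hz₀
  linarith

end Pool.Agent.Q42.Flat
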