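import Mathlib

/-!
Laplacian spread of `[0,1]`-weighted graphs: `λ₂(G) + λ₂(Gᶜ) ≥ 1`.
-/

set_option autoImplicit false

namespace Pool.Agent.Q42.Spread

open Finset

/-! ### the numeric lemma -/

/-- upper bound for the square of the range from the energy of a path -/
lemma range_bound (a b u v θ e : ℝ) (ha : 0 ≤ a) (hb : 0 ≤ b) (hθ : θ ≤ 3 / 5)
    (hu : (1 - θ) * a ≤ u) (hua : u ≤ a) (hv : (1 - θ) * b ≤ v) (hvb : v ≤ b)
    (he : (a - u) ^ 2 + (u + v) ^ 2 + (b - v) ^ 2 ≤ e) :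
    (a + b) ^ 2 * ((1 - θ) ^ 2 + θ ^ 2 / 2) ≤ e := by
  set X := a + b with hX
  set δ := (a - u) + (b - v) with hδ
  have hX0 : 0 ≤ X := by positivity
  have h1 : δ ≤ θ * X := by rw [hX, hδ]; linarith
  have h0 : 0 ≤ δ := by rw [hδ]; linarith
  have h2 : (X - δ) ^ 2 + δ ^ 2 / 2 ≤ e := by
    have e1 : X - δ = u + v := by rw [hX, hδ]; ring
    have e2 : δ ^ 2 / 2 ≤ (a - u) ^ 2 + (b - v) ^ 2 := by
      rw [hδ]; nlinarith [sq_nonneg ((a - u) - (b - v))]
    rw [e1]; linarith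
  have h3 : 0 ≤ (θ * X - δ) * (2 * X - 3 / 2 * (δ + θ * X)) := by
    apply mul_nonneg (by linarith)
    nlinarith
  nlinarith [h3, h2]

lemma kappa (D X Y x y : ℝ) (hD0 : 0 ≤ D) (hD : D ≤ 2 / 5) (hX : 0 ≤ X) (hY : 0 ≤ Y) :
    0.96 * (X * Y) ^ 2 ≤ (1 + D ^ 2) * ((X ^ 2 + x ^ 2) * (Y ^ 2 + y ^ 2)) + 8 * D * (x * X) * (y * Y) := by
  set M := X * Y with hM
  set N := - (x * y) with hN
  have hM0 : 0 ≤ M := by positivity
  have e1 : (X ^ 2 + x ^ 2) * (Y ^ 2 + y ^ 2) = (M + N) ^ 2 + (X * y + x * Y) ^ 2 := by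
    rw [hM, hN]; ring
  have e2 : 8 * D * (x * X) * (y * Y) = - (8 * D * M * N) := by rw [hM, hN]; ring
  rw [e1, e2]
  have key : 0.96 * M ^ 2 ≤ (1 + D ^ 2) * (M + N) ^ 2 - 8 * D * M * N ∨
      (N ≤ 0) := by
    by_cases hN0 : N ≤ 0
    · right; exact hN0
    left
    push Not at hN0
    by_cases hs : 0 ≤ 1 + D ^ 2 - 4 * D
    · nlinarith [mul_nonneg (mul_nonneg hM0 hN0.le) hs, sq_nonneg M, sq_nonneg N, mul_nonneg (sq_nonneg D) (sq_nonneg M), mul_nonneg (sq_nonneg D) (sq_nonneg N)]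
    · push Not at hs
      have hD2 : 1 / 5 ≤ D := by
        by_contra h
        push Not at h
        nlinarith [sq_nonneg D]
      have hpoly : 0 ≤ (1 + D ^ 2) * (D ^ 2 + 0.04) - (1 + D ^ 2 - 4 * D) ^ 2 := by
        have : (1 + D ^ 2) * (D ^ 2 + 0.04) - (1 + D ^ 2 - 4 * D) ^ 2 =
          8 * D ^ 3 - 16.96 * D ^ 2 + 8 * D - 0.96 := by ring
        rw [this]
        nlinarith [mul_nonneg (sub_nonneg.2 hD2) (sub_nonneg.2 hD), mul_nonneg (mul_nonneg (sub_nonneg.2 hD2) (sub_nonneg.2 hD)) (sub_nonneg.2 hD2), mul_nonneg (mul_nonneg (sub_nonneg.2 hD2) (sub_nonneg.2 hD)) (sub_nonneg.2 hD)]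
      have hpos : 0 < 1 + D ^ 2 := by positivity
      have h3 : 0 ≤ (1 + D ^ 2) * ((1 + D ^ 2) * (M + N) ^ 2 - 8 * D * M * N - 0.96 * M ^ 2) := by
        have : (1 + D ^ 2) * ((1 + D ^ 2) * (M + N) ^ 2 - 8 * D * M * N - 0.96 * M ^ 2) =
          ((1 + D ^ 2) * N + (1 + D ^ 2 - 4 * D) * M) ^ 2 +
            ((1 + D ^ 2) * (D ^ 2 + 0.04) - (1 + D ^ 2 - 4 * D) ^ 2) * M ^ 2 := by ring
        rw [this]
        positivity
      have h4 := nonneg_of_mul_nonneg_right h3 hpos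
      linarith
  rcases key with key | key
  · nlinarith [mul_nonneg (by positivity : (0:ℝ) ≤ 1 + D ^ 2) (sq_nonneg (X * y + x * Y))]
  · have h1 : 0 ≤ - (8 * D * M * N) := by
      have : 0 ≤ D * M * (-N) := by
        apply mul_nonneg (by positivity) (by linarith)
      linarith
    have h2 : M ^ 2 ≤ (M + N) ^ 2 + (X * y + x * Y) ^ 2 := by
      rw [← e1, hM]
      nlinarith [mul_nonneg (sq_nonneg X) (sq_nonneg y), mul_nonneg (sq_nonneg x) (sq_nonneg Y), mul_nonneg (sq_nonneg x) (sq_nonneg y)]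
    nlinarith [mul_nonneg (sq_nonneg D) (by positivity : (0:ℝ) ≤ (M + N) ^ 2 + (X * y + x * Y) ^ 2), sq_nonneg M]

/-- the numeric lemma for `α ≤ 1/2` and `β = 1 - α` -/
lemma numeric_half (a b c d u v s w α : ℝ) (ha : 0 ≤ a) (hb : 0 ≤ b) (hc : 0 ≤ c) (hd : 0 ≤ d)
    (hα0 : 0 ≤ α) (hα : α ≤ 1 / 2)
    (hu : (1 - α) * a ≤ u) (hua : u ≤ a) (hv : (1 - α) * b ≤ v) (hvb : v ≤ b)
    (hs : α * c ≤ s) (hsc : s ≤ c) (hw : α * d ≤ w) (hwd : w ≤ d)
    (h1 : (a - u) ^ 2 + (u + v) ^ 2 + (b - v) ^ 2 ≤ α)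
    (h2 : (c - s) ^ 2 + (s + w) ^ 2 + (d - w) ^ 2 ≤ 1 - α)
    (h3 : c ^ 2 + d ^ 2 ≤ 1) :
    α * (c + d) ^ 2 + (1 - α) * (a + b) ^ 2 <
      1 + 4 * (a ^ 2 * w ^ 2 + b ^ 2 * s ^ 2 + u ^ 2 * c ^ 2 + v ^ 2 * d ^ 2) := by
  have hS := range_bound a b u v α α ha hb (by linarith) hu hua hv hvb h1
  set S := (a + b) ^ 2 with hSd
  set T := (c + d) ^ 2 with hTd
  have hT2 : T ≤ 2 := by rw [hTd]; nlinarith [sq_nonneg (c - d)]
  have hS0 : 0 ≤ S := by positivity
  have hT0 : 0 ≤ T := by positivity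
  have hsum : 0 ≤ a ^ 2 * w ^ 2 + b ^ 2 * s ^ 2 + u ^ 2 * c ^ 2 + v ^ 2 * d ^ 2 := by positivity
  rcases le_or_gt α (3 / 10) with h | h
  · -- small α
    have : 2 * α + (1 - α) * S < 1 := by
      by_contra hcon
      push Not at hcon
      have hq : 0 < (1 - α) ^ 2 + α ^ 2 / 2 := by nlinarith
      have h5 : (1 - 2 * α) * ((1 - α) ^ 2 + α ^ 2 / 2) ≤ (1 - α) * α := by
        calc (1 - 2 * α) * ((1 - α) ^ 2 + α ^ 2 / 2) ≤ ((1 - α) * S) * ((1 - α) ^ 2 + α ^ 2 / 2) := by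
              apply mul_le_mul_of_nonneg_right _ hq.le
              linarith
          _ = (1 - α) * (S * ((1 - α) ^ 2 + α ^ 2 / 2)) := by ring
          _ ≤ (1 - α) * α := by
              apply mul_le_mul_of_nonneg_left hS (by linarith)
      nlinarith [mul_nonneg hα0 (sub_nonneg.2 h), mul_nonneg (mul_nonneg hα0 hα0) (sub_nonneg.2 h)]
    nlinarith [mul_nonneg hα0 (sub_nonneg.2 hT2)]
  · -- the term with the products
    have hD := kappa (1 - 2 * α) (a + b) (c + d) (a - b) (c - d) (by linarith) (by linarith)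
      (by positivity) (by positivity)
    have hα1 : 0 ≤ 1 - α := by linarith
    have hlow : 0.06 * (S * T) ≤ a ^ 2 * w ^ 2 + b ^ 2 * s ^ 2 + u ^ 2 * c ^ 2 + v ^ 2 * d ^ 2 := by
      have w1 : (α * d) ^ 2 ≤ w ^ 2 := by
        apply pow_le_pow_left₀ (by positivity) hw
      have s1 : (α * c) ^ 2 ≤ s ^ 2 := by
        apply pow_le_pow_left₀ (by positivity) hs
      have u1 : ((1 - α) * a) ^ 2 ≤ u ^ 2 := by
        apply pow_le_pow_left₀ (by positivity) hu
      have v1 : ((1 - α) * b) ^ 2 ≤ v ^ 2 := by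
        apply pow_le_pow_left₀ (by positivity) hv
      have e1 := mul_le_mul_of_nonneg_left w1 (sq_nonneg a)
      have e2 := mul_le_mul_of_nonneg_left s1 (sq_nonneg b)
      have e3 := mul_le_mul_of_nonneg_right u1 (sq_nonneg c)
      have e4 := mul_le_mul_of_nonneg_right v1 (sq_nonneg d)
      have e5 : (1 + (1 - 2 * α) ^ 2) * (((a + b) ^ 2 + (a - b) ^ 2) * ((c + d) ^ 2 + (c - d) ^ 2)) +
          8 * (1 - 2 * α) * ((a - b) * (a + b)) * ((c - d) * (c + d)) =
          16 * (a ^ 2 * (α * d) ^ 2 + b ^ 2 * (α * c) ^ 2 + ((1 - α) * a) ^ 2 * c ^ 2 + ((1 - α) * b) ^ 2 * d ^ 2) := by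
        ring
      rw [e5] at hD
      have e6 : ((a + b) * (c + d)) ^ 2 = S * T := by rw [hSd, hTd]; ring
      rw [e6] at hD
      linarith
    rcases le_or_gt α (2 / 5) with h' | h'
    · have hS1 : S ≤ 10 / 11 := by
        by_contra hcon
        push Not at hcon
        have hq : 0 < (1 - α) ^ 2 + α ^ 2 / 2 := by nlinarith
        have := mul_lt_mul_of_pos_right hcon hq
        nlinarith [mul_nonneg (sub_nonneg.2 h') (sub_nonneg.2 h')]
      nlinarith [mul_nonneg (sub_nonneg.2 hS1) (sub_nonneg.2 hT2), mul_nonneg (sub_nonneg.2 hS1) (sub_nonneg.2 h'), mul_nonneg (sub_nonneg.2 hT2) (sub_nonneg.2 h.le)]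
    · have hS1 : S ≤ 4 / 3 := by
        by_contra hcon
        push Not at hcon
        have hq : 0 < (1 - α) ^ 2 + α ^ 2 / 2 := by nlinarith
        have := mul_lt_mul_of_pos_right hcon hq
        nlinarith [mul_nonneg (sub_nonneg.2 hα) (sub_nonneg.2 hα)]
      have hT := range_bound c d s w (1 - α) (1 - α) hc hd (by linarith)
        (by linarith) hsc (by linarith) hwd h2
      have hT1 : T ≤ 30 / 17 := by
        by_contra hcon
        push Not at hcon
        have hq : 0 < (1 - (1 - α)) ^ 2 + (1 - α) ^ 2 / 2 := by nlinarith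
        have := mul_lt_mul_of_pos_right hcon hq
        nlinarith [mul_nonneg (sub_nonneg.2 h'.le) (sub_nonneg.2 h'.le)]
      nlinarith [mul_nonneg (sub_nonneg.2 hS1) (sub_nonneg.2 hT1), mul_nonneg (sub_nonneg.2 hS1) (sub_nonneg.2 hα), mul_nonneg (sub_nonneg.2 hT1) (sub_nonneg.2 h'.le)]

/-- the numeric lemma -/
lemma numeric (a b c d u v s w α β : ℝ) (ha : 0 ≤ a) (hb : 0 ≤ b) (hc : 0 ≤ c) (hd : 0 ≤ d)
    (hα0 : 0 ≤ α) (hβ0 : 0 ≤ β) (hαβ : α + β ≤ 1)
    (hu : (1 - α) * a ≤ u) (hua : u ≤ a) (hv : (1 - α) * b ≤ v) (hvb : v ≤ b)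
    (hs : (1 - β) * c ≤ s) (hsc : s ≤ c) (hw : (1 - β) * d ≤ w) (hwd : w ≤ d)
    (h1 : (a - u) ^ 2 + (u + v) ^ 2 + (b - v) ^ 2 ≤ α)
    (h2 : (c - s) ^ 2 + (s + w) ^ 2 + (d - w) ^ 2 ≤ β)
    (h3 : c ^ 2 + d ^ 2 ≤ 1) (h4 : a ^ 2 + b ^ 2 ≤ 1) :
    α * (c + d) ^ 2 + β * (a + b) ^ 2 <
      1 + 4 * (a ^ 2 * w ^ 2 + b ^ 2 * s ^ 2 + u ^ 2 * c ^ 2 + v ^ 2 * d ^ 2) := by
  rcases le_or_gt α (1 / 2) with h | h
  · have := numeric_half a b c d u v s w α ha hb hc hd hα0 h hu hua hv hvb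
      (le_trans (mul_le_mul_of_nonneg_right (by linarith) hc) hs) hsc
      (le_trans (mul_le_mul_of_nonneg_right (by linarith) hd) hw) hwd h1 (by linarith) h3
    have h5 : β * (a + b) ^ 2 ≤ (1 - α) * (a + b) ^ 2 :=
      mul_le_mul_of_nonneg_right (by linarith) (sq_nonneg _)
    linarith
  · have := numeric_half c d b a s w v u β hc hd hb ha hβ0 (by linarith) hs hsc hw hwd
      (le_trans (mul_le_mul_of_nonneg_right (by linarith) hb) hv) hvb
      (le_trans (mul_le_mul_of_nonneg_right (by linarith) ha) hu) hua h2 (by nlinarith) (by linarith)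
    have h5 : α * (c + d) ^ 2 ≤ (1 - β) * (c + d) ^ 2 :=
      mul_le_mul_of_nonneg_right (by linarith) (sq_nonneg _)
    have e1 : (b + a) ^ 2 = (a + b) ^ 2 := by ring
    rw [e1] at this
    nlinarith

/-! ### optimal vectors -/

variable {n : ℕ}

/-- twice the energy -/
def En (g : Fin n → Fin n → ℝ) (x : Fin n → ℝ) : ℝ := ∑ i, ∑ j, g i j * (x i - x j) ^ 2

/-- `x` is a unit vector of mean zero which minimizes the energy, and `α` is the minimum -/
structure Opt (g : Fin n → Fin n → ℝ) (x : Fin n → ℝ) (α : ℝ) : Prop where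
  sum : ∑ i, x i = 0
  norm : ∑ i, x i ^ 2 = 1
  en : En g x = 2 * α
  min : ∀ z : Fin n → ℝ, ∑ i, z i = 0 → 2 * α * ∑ i, z i ^ 2 ≤ En g z

lemma En_smul (g : Fin n → Fin n → ℝ) (x : Fin n → ℝ) (c : ℝ) : En g (fun i => c * x i) = c ^ 2 * En g x := by
  unfold En
  rw [mul_sum]
  apply sum_congr rfl; intro i _
  rw [mul_sum]
  apply sum_congr rfl; intro j _
  ring

lemma exists_opt (g : Fin n → Fin n → ℝ) (x0 : Fin n → ℝ) (h0 : ∑ i, x0 i = 0) (hne : x0 ≠ 0) :
    ∃ x α, Opt g x α := by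
  set S : Set (Fin n → ℝ) := {x | ∑ i, x i = 0 ∧ ∑ i, x i ^ 2 = 1} with hS
  have hclosed : IsClosed S := by
    apply IsClosed.inter
    · exact isClosed_eq (by fun_prop) continuous_const
    · exact isClosed_eq (by fun_prop) continuous_const
  have hbdd : Bornology.IsBounded S := by
    refine (Metric.isBounded_closedBall (x := (0 : Fin n → ℝ)) (r := 1)).subset ?_
    intro x hx
    rw [mem_closedBall_zero_iff, pi_norm_le_iff_of_nonneg zero_le_one]
    intro i
    rw [Real.norm_eq_abs, ← sq_le_one_iff_abs_le_one, ← hx.2]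
    exact single_le_sum (f := fun i => x i ^ 2) (fun _ _ => sq_nonneg _) (mem_univ i)
  have hcomp : IsCompact S := Metric.isCompact_of_isClosed_isBounded hclosed hbdd
  have scale : ∀ z : Fin n → ℝ, ∑ i, z i = 0 → 0 < ∑ i, z i ^ 2 →
      (fun i => (Real.sqrt (∑ i, z i ^ 2))⁻¹ * z i) ∈ S := by
    intro z hz hN
    constructor
    · rw [← mul_sum, hz, mul_zero]
    · have : ∑ i, ((Real.sqrt (∑ i, z i ^ 2))⁻¹ * z i) ^ 2 =
          ((Real.sqrt (∑ i, z i ^ 2))⁻¹) ^ 2 * ∑ i, z i ^ 2 := by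
        rw [mul_sum]
        apply sum_congr rfl; intro i _; ring
      rw [this, inv_pow, Real.sq_sqrt hN.le]
      exact inv_mul_cancel₀ hN.ne'
  have hpos : ∀ z : Fin n → ℝ, z ≠ 0 → 0 < ∑ i, z i ^ 2 := by
    intro z hz
    obtain ⟨i, hi⟩ := Function.ne_iff.1 hz
    have h1 : z i ^ 2 ≤ ∑ i, z i ^ 2 :=
      single_le_sum (f := fun i => z i ^ 2) (fun _ _ => sq_nonneg _) (mem_univ i)
    have h2 : 0 < z i ^ 2 := by
      have : z i ≠ 0 := by simpa using hi
      positivity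
    linarith
  have hcont : Continuous (En g) := by
    unfold En
    fun_prop
  obtain ⟨x, hx, hmin⟩ := hcomp.exists_isMinOn ⟨_, scale x0 h0 (hpos x0 hne)⟩ hcont.continuousOn
  refine ⟨x, En g x / 2, hx.1, hx.2, by ring, ?_⟩
  intro z hz
  by_cases hz0 : z = 0
  · subst hz0
    simp [En]
  · have hN := hpos z hz0
    have h1 := hmin (scale z hz hN)
    simp only [Set.mem_setOf_eq] at h1
    have h1' : En g x ≤ En g (fun i => (Real.sqrt (∑ i, z i ^ 2))⁻¹ * z i) := h1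
    rw [En_smul, inv_pow, Real.sq_sqrt hN.le] at h1'
    have : En g x * ∑ i, z i ^ 2 ≤ En g z := by
      calc En g x * ∑ i, z i ^ 2 ≤ ((∑ i, z i ^ 2)⁻¹ * En g z) * ∑ i, z i ^ 2 :=
            mul_le_mul_of_nonneg_right h1' hN.le
        _ = En g z := by field_simp
    linarith

lemma Opt.neg {g : Fin n → Fin n → ℝ} {x : Fin n → ℝ} {α : ℝ} (h : Opt g x α) : Opt g (fun i => - x i) α := by
  refine ⟨?_, ?_, ?_, h.min⟩
  · rw [sum_neg_distrib, h.sum, neg_zero]
  · rw [← h.norm]; apply sum_congr rfl; intro i _; ring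
  · rw [← h.en]
    unfold En
    apply sum_congr rfl; intro i _
    apply sum_congr rfl; intro j _
    ring

lemma lin_zero (k1 k2 : ℝ) (h : ∀ t : ℝ, 0 ≤ t * k1 + t ^ 2 * k2) : k1 = 0 := by
  by_contra hk
  rcases le_or_gt k2 0 with h2 | h2
  · have h3 := h (-k1)
    have : 0 < k1 ^ 2 := by positivity
    nlinarith [mul_nonneg (sq_nonneg k1) (neg_nonneg.2 h2)]
  · have h3 := h (-k1 / (2 * k2))
    have : (-k1 / (2 * k2)) * k1 + (-k1 / (2 * k2)) ^ 2 * k2 = - (k1 ^ 2 / (4 * k2)) := by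
      field_simp; ring
    rw [this] at h3
    have : 0 < k1 ^ 2 / (4 * k2) := by positivity
    linarith

lemma eig {g : Fin n → Fin n → ℝ} (hsym : ∀ i j, g i j = g j i) {x : Fin n → ℝ} {α : ℝ} (h : Opt g x α)
    (p : Fin n) : ∑ j, g p j * (x p - x j) = α * x p := by
  classical
  have hn : (n : ℝ) ≠ 0 := by
    have : 0 < n := lt_of_le_of_lt (Nat.zero_le _) p.2
    positivity
  set z : Fin n → ℝ := fun i => (if i = p then 1 else 0) - 1 / n with hz
  have hz0 : ∑ i, z i = 0 := by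
    simp only [hz, sum_sub_distrib, sum_ite_eq', mem_univ, if_true, sum_const, card_univ, Fintype.card_fin, nsmul_eq_mul]
    field_simp
    ring
  have hxz : ∑ i, x i * z i = x p := by
    simp only [hz, mul_sub, sum_sub_distrib, mul_ite, mul_one, mul_zero, sum_ite_eq', mem_univ, if_true]
    rw [← sum_mul, h.sum]; ring
  set B : ℝ := ∑ i, ∑ j, g i j * ((x i - x j) * (z i - z j)) with hB
  have hBv : B = 2 * ∑ j, g p j * (x p - x j) := by
    have h1 : ∀ i j, g i j * ((x i - x j) * (z i - z j)) =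
        (if i = p then g i j * (x i - x j) else 0) - (if j = p then g i j * (x i - x j) else 0) := by
      intro i j
      simp only [hz]
      split_ifs <;> ring
    rw [hB]
    simp only [h1, sum_sub_distrib]
    have e1 : ∑ i, ∑ j, (if i = p then g i j * (x i - x j) else 0) = ∑ j, g p j * (x p - x j) := by
      rw [sum_comm]
      apply sum_congr rfl; intro j _
      simp
    have e2 : ∑ i, ∑ j, (if j = p then g i j * (x i - x j) else 0) = - ∑ j, g p j * (x p - x j) := by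
      rw [← sum_neg_distrib]
      apply sum_congr rfl; intro i _
      simp only [sum_ite_eq', mem_univ, if_true]
      rw [hsym i p]; ring
    rw [e1, e2]; ring
  have key : ∀ t : ℝ, 0 ≤ t * (2 * B - 4 * α * x p) + t ^ 2 * (En g z - 2 * α * ∑ i, z i ^ 2) := by
    intro t
    have h1 := h.min (fun i => x i + t * z i) (by rw [sum_add_distrib, ← mul_sum, h.sum, hz0]; ring)
    have h2 : ∑ i, (x i + t * z i) ^ 2 = 1 + 2 * t * x p + t ^ 2 * ∑ i, z i ^ 2 := by
      have : ∀ i, (x i + t * z i) ^ 2 = x i ^ 2 + 2 * t * (x i * z i) + t ^ 2 * z i ^ 2 := fun i => by ring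
      simp only [this, sum_add_distrib, ← mul_sum, h.norm, hxz]
    have h3 : En g (fun i => x i + t * z i) = 2 * α + 2 * t * B + t ^ 2 * En g z := by
      have : ∀ i j, g i j * ((x i + t * z i) - (x j + t * z j)) ^ 2 =
        g i j * (x i - x j) ^ 2 + 2 * t * (g i j * ((x i - x j) * (z i - z j))) + t ^ 2 * (g i j * (z i - z j) ^ 2) :=
        fun i j => by ring
      rw [← h.en, hB]
      unfold En
      simp only [this, sum_add_distrib, ← mul_sum]
    rw [h2, h3] at h1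
    nlinarith
  have h5 := lin_zero _ _ key
  rw [hBv] at h5
  linarith

lemma exists_max_pos {x : Fin n → ℝ} (h0 : ∑ i, x i = 0) (h1 : ∑ i, x i ^ 2 = 1) :
    ∃ p, (∀ j, x j ≤ x p) ∧ 0 < x p := by
  have hne : Nonempty (Fin n) := by
    by_contra hcon
    rw [not_nonempty_iff] at hcon
    simp at h1
  obtain ⟨p, hp⟩ := Finite.exists_max x
  refine ⟨p, hp, ?_⟩
  by_contra hcon
  push Not at hcon
  have h2 : ∀ i ∈ univ, x i ≤ 0 := fun i _ => (hp i).trans hcon
  have h3 := (sum_eq_zero_iff_of_nonpos h2).1 h0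
  have h4 : ∑ i, x i ^ 2 = 0 := sum_eq_zero fun i hi => by rw [h3 i hi]; ring
  rw [h4] at h1
  exact zero_ne_one h1

/-- a neighbour of the maximum -/
lemma nbr {g : Fin n → Fin n → ℝ} (hsym : ∀ i j, g i j = g j i) (hg : ∀ i j, g i j = 0 ∨ g i j = 1)
    {x : Fin n → ℝ} {α : ℝ} (h : Opt g x α) {p : Fin n} (hp : ∀ j, x j ≤ x p) {j : Fin n} (hj : g p j = 1) :
    (1 - α) * x p ≤ x j := by
  have h1 := eig hsym h p
  have h2 : g p j * (x p - x j) ≤ ∑ j, g p j * (x p - x j) := by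
    apply single_le_sum (f := fun j => g p j * (x p - x j)) _ (mem_univ j)
    intro i _
    apply mul_nonneg _ (by linarith [hp i])
    rcases hg p i with h | h <;> rw [h] <;> norm_num
  rw [h1, hj] at h2
  linarith

/-! ### sums over few elements -/

lemma two_le {f : Fin n → ℝ} (hf : ∀ i, 0 ≤ f i) {a b : Fin n} (hab : a ≠ b) : f a + f b ≤ ∑ i, f i := by
  classical
  rw [← sum_pair hab]
  exact sum_le_sum_of_subset_of_nonneg (subset_univ _) (fun i _ _ => hf i)

lemma four_le {f : Fin n → ℝ} (hf : ∀ i, 0 ≤ f i) {a b c d : Fin n} (hab : a ≠ b) (hac : a ≠ c) (had : a ≠ d)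
    (hbc : b ≠ c) (hbd : b ≠ d) (hcd : c ≠ d) : f a + f b + f c + f d ≤ ∑ i, f i := by
  classical
  have h1 : ∑ i ∈ ({a, b, c, d} : Finset (Fin n)), f i = f a + f b + f c + f d := by
    rw [sum_insert (by simp [hab, hac, had]), sum_insert (by simp [hbc, hbd]), sum_pair hcd]
    ring
  rw [← h1]
  exact sum_le_sum_of_subset_of_nonneg (subset_univ _) (fun i _ _ => hf i)

lemma four_card {a b c d : Fin n} (hab : a ≠ b) (hac : a ≠ c) (had : a ≠ d)
    (hbc : b ≠ c) (hbd : b ≠ d) (hcd : c ≠ d) : (4 : ℝ) ≤ n := by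
  have := four_le (f := fun _ => (1 : ℝ)) (fun _ => zero_le_one) hab hac had hbc hbd hcd
  simp at this
  linarith

/-- the energy of a path `p - r - t - q` -/
lemma path_energy {g : Fin n → Fin n → ℝ} (hsym : ∀ i j, g i j = g j i) (hg : ∀ i j, g i j = 0 ∨ g i j = 1)
    {x : Fin n → ℝ} {α : ℝ} (h : Opt g x α) {p q r t : Fin n} (hpq : p ≠ q) (hpr : p ≠ r) (hpt : p ≠ t)
    (hqr : q ≠ r) (hqt : q ≠ t) (hrt : r ≠ t) (h1 : g p r = 1) (h2 : g r t = 1) (h3 : g t q = 1) :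
    (x p - x r) ^ 2 + (x r - x t) ^ 2 + (x t - x q) ^ 2 ≤ α := by
  have hnn : ∀ i j, 0 ≤ g i j * (x i - x j) ^ 2 := by
    intro i j
    apply mul_nonneg _ (sq_nonneg _)
    rcases hg i j with h | h <;> rw [h] <;> norm_num
  have hrow : ∀ i, 0 ≤ ∑ j, g i j * (x i - x j) ^ 2 := fun i => sum_nonneg fun j _ => hnn i j
  have hs := four_le hrow hpq hpr hpt hqr hqt hrt
  have a1 : g p r * (x p - x r) ^ 2 ≤ ∑ j, g p j * (x p - x j) ^ 2 :=
    single_le_sum (f := fun j => g p j * (x p - x j) ^ 2) (fun j _ => hnn p j) (mem_univ r)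
  have a2 : g q t * (x q - x t) ^ 2 ≤ ∑ j, g q j * (x q - x j) ^ 2 :=
    single_le_sum (f := fun j => g q j * (x q - x j) ^ 2) (fun j _ => hnn q j) (mem_univ t)
  have a3 := two_le (f := fun j => g r j * (x r - x j) ^ 2) (hnn r) hpt
  have a4 := two_le (f := fun j => g t j * (x t - x j) ^ 2) (hnn t) hqr
  have h5 : (∑ i, ∑ j, g i j * (x i - x j) ^ 2) = 2 * α := h.en
  rw [h1] at a1
  rw [hsym q t, h3] at a2
  rw [hsym r p, h1, h2] at a3
  rw [h3, hsym t r, h2] at a4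
  nlinarith

/-- the identity for the sum of the products of the squares of the differences -/
lemma identity {x y : Fin n → ℝ} (hx : ∑ i, x i = 0) (hy : ∑ i, y i = 0) :
    ∑ i, ∑ j, (x i - x j) ^ 2 * (y i - y j) ^ 2 =
      2 * n * ∑ i, x i ^ 2 * y i ^ 2 + 2 * (∑ i, x i ^ 2) * (∑ i, y i ^ 2) + 4 * (∑ i, x i * y i) ^ 2 := by
  have h1 : ∀ i j, (x i - x j) ^ 2 * (y i - y j) ^ 2 =
      x i ^ 2 * y i ^ 2 + x j ^ 2 * y j ^ 2 + x i ^ 2 * y j ^ 2 + y i ^ 2 * x j ^ 2
      + (4 * (x i * y i)) * (x j * y j) - (2 * (x i ^ 2 * y i)) * y j - (2 * y i) * (x j ^ 2 * y j)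
      - (2 * (x i * y i ^ 2)) * x j - (2 * x i) * (x j * y j ^ 2) := fun i j => by ring
  have h2 : ∑ i : Fin n, x i ^ 2 * ((n : ℝ) * y i ^ 2) = n * ∑ i, x i ^ 2 * y i ^ 2 := by
    rw [mul_sum]; exact sum_congr rfl fun i _ => by ring
  simp only [h1, sum_sub_distrib, sum_add_distrib, ← mul_sum, ← sum_mul, hx, hy, sum_const, card_univ,
    Fintype.card_fin, nsmul_eq_mul, mul_zero, zero_mul]
  rw [h2]
  ring

/-- the central inequality -/
lemma central {g : Fin n → Fin n → ℝ} (hg : ∀ i j, g i j = 0 ∨ g i j = 1)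
    {x y : Fin n → ℝ} {α β : ℝ} (h : Opt g x α) (h' : Opt (fun i j => 1 - g i j) y β)
    {p q r t : Fin n} (hp : ∀ j, x j ≤ x p) (hq : ∀ j, x q ≤ x j) (hr : ∀ j, y j ≤ y r) (ht : ∀ j, y t ≤ y j) :
    1 + n * ∑ i, x i ^ 2 * y i ^ 2 ≤ α * (y r - y t) ^ 2 + β * (x p - x q) ^ 2 := by
  have hid := identity h.sum h'.sum
  rw [h.norm, h'.norm] at hid
  have h1 : ∑ i, ∑ j, (x i - x j) ^ 2 * (y i - y j) ^ 2 ≤
      (y r - y t) ^ 2 * En g x + (x p - x q) ^ 2 * En (fun i j => 1 - g i j) y := by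
    unfold En
    rw [mul_sum, mul_sum, ← sum_add_distrib]
    apply sum_le_sum; intro i _
    rw [mul_sum, mul_sum, ← sum_add_distrib]
    apply sum_le_sum; intro j _
    have a1 : (y i - y j) ^ 2 ≤ (y r - y t) ^ 2 := by
      apply sq_le_sq'
      · linarith [hr j, ht i]
      · linarith [hr i, ht j]
    have a2 : (x i - x j) ^ 2 ≤ (x p - x q) ^ 2 := by
      apply sq_le_sq'
      · linarith [hp j, hq i]
      · linarith [hp i, hq j]
    show (x i - x j) ^ 2 * (y i - y j) ^ 2 ≤ (y r - y t) ^ 2 * (g i j * (x i - x j) ^ 2) +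
      (x p - x q) ^ 2 * ((1 - g i j) * (y i - y j) ^ 2)
    rcases hg i j with h | h
    · rw [h]
      have := mul_le_mul_of_nonneg_right a2 (sq_nonneg (y i - y j))
      linarith
    · rw [h]
      have := mul_le_mul_of_nonneg_left a1 (sq_nonneg (x i - x j))
      linarith
  rw [h.en, h'.en] at h1
  nlinarith [sq_nonneg (∑ i, x i * y i)]

/-- the case in which the maximum of `x` is a neighbour of the maximum of `y` -/
lemma core {g : Fin n → Fin n → ℝ} (hsym : ∀ i j, g i j = g j i) (hg : ∀ i j, g i j = 0 ∨ g i j = 1)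
    {x y : Fin n → ℝ} {α β : ℝ} (h : Opt g x α) (h' : Opt (fun i j => 1 - g i j) y β)
    (hα0 : 0 ≤ α) (hβ0 : 0 ≤ β) (hαβ : α + β < 1)
    {p q r t : Fin n} (hp : ∀ j, x j ≤ x p) (hq : ∀ j, x q ≤ x j) (hr : ∀ j, y j ≤ y r) (ht : ∀ j, y t ≤ y j)
    (hp0 : 0 < x p) (hq0 : x q < 0) (hr0 : 0 < y r) (ht0 : y t < 0) (hpr1 : g p r = 1) : False := by
  have hsym' : ∀ i j, (fun i j => 1 - g i j) i j = (fun i j => 1 - g i j) j i := by
    intro i j; simp only [hsym i j]
  have hg' : ∀ i j, (fun i j => 1 - g i j) i j = 0 ∨ (fun i j => 1 - g i j) i j = 1 := by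
    intro i j
    rcases hg i j with h | h <;> simp [h]
  have np : ∀ j, g p j = 1 → (1 - α) * x p ≤ x j := fun j hj => nbr hsym hg h hp hj
  have nq : ∀ j, g q j = 1 → x j ≤ (1 - α) * x q := fun j hj => by
    have := nbr hsym hg h.neg (p := q) (fun j => neg_le_neg (hq j)) hj
    linarith
  have nr : ∀ j, g r j = 0 → (1 - β) * y r ≤ y j := fun j hj =>
    nbr hsym' hg' h' hr (by simp only [hj, sub_zero])
  have nt : ∀ j, g t j = 0 → y j ≤ (1 - β) * y t := fun j hj => by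
    have := nbr hsym' hg' h'.neg (p := t) (fun j => neg_le_neg (ht j)) (j := j) (by simp only [hj, sub_zero])
    linarith
  have hα1 : 0 < 1 - α := by linarith
  have hβ1 : 0 < 1 - β := by linarith
  have xp' : 0 < (1 - α) * x p := mul_pos hα1 hp0
  have xq' : (1 - α) * x q < 0 := mul_neg_of_pos_of_neg hα1 hq0
  have yr' : 0 < (1 - β) * y r := mul_pos hβ1 hr0
  have yt' : (1 - β) * y t < 0 := mul_neg_of_pos_of_neg hβ1 ht0
  have A1 : ∀ j, g p j = 1 → g q j = 0 := by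
    intro j hj
    rcases hg q j with h | h
    · exact h
    · linarith [np j hj, nq j h]
  have A1' : ∀ j, g q j = 1 → g p j = 0 := by
    intro j hj
    rcases hg p j with h | h
    · exact h
    · linarith [np j h, nq j hj]
  have A2 : ∀ j, g r j = 0 → g t j = 1 := by
    intro j hj
    rcases hg t j with h | h
    · linarith [nr j hj, nt j h]
    · exact h
  have A3 : g p q = 0 := by
    rcases hg p q with h | h
    · exact h
    · linarith [np q h]
  have A4 : g r t = 1 := by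
    rcases hg r t with h | h
    · linarith [nr t h]
    · exact h
  have B1 : g q r = 0 := A1 r hpr1
  have B2 : g t q = 1 := A2 q (by rw [hsym]; exact B1)
  have B3 : g p t = 0 := A1' t (by rw [hsym]; exact B2)
  have dpq : p ≠ q := by rintro rfl; linarith
  have drt : r ≠ t := by rintro rfl; linarith
  have dpr : p ≠ r := by
    rintro rfl
    rw [A4] at B3; norm_num at B3
  have dpt : p ≠ t := by
    intro hh
    rw [← hh, A3] at B2; norm_num at B2
  have dqr : q ≠ r := by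
    rintro rfl
    rw [A3] at hpr1; norm_num at hpr1
  have dqt : q ≠ t := by
    intro hh
    rw [← hh, hsym r q, B1] at A4; norm_num at A4
  have e1 := path_energy hsym hg h dpq dpr dpt dqr dqt drt hpr1 A4 B2
  have e2 := path_energy hsym' hg' h' (p := r) (q := t) (r := q) (t := p) drt dqr.symm dpr.symm dqt.symm dpt.symm
    dpq.symm (by simp only [hsym r q, B1, sub_zero]) (by simp only [hsym q p, A3, sub_zero])
    (by simp only [B3, sub_zero])
  have e3 := central hg h h' hp hq hr ht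
  have hn := four_card dpq dpr dpt dqr dqt drt
  have e4 := four_le (f := fun i => x i ^ 2 * y i ^ 2) (fun i => by positivity) dpq dpr dpt dqr dqt drt
  have e5 := two_le (f := fun i => x i ^ 2) (fun i => by positivity) dpq
  have e6 := two_le (f := fun i => y i ^ 2) (fun i => by positivity) drt
  rw [h.norm] at e5
  rw [h'.norm] at e6
  have hnum := numeric (x p) (- x q) (y r) (- y t) (x r) (- x t) (y q) (- y p) α β hp0.le (by linarith) hr0.le
    (by linarith) hα0 hβ0 hαβ.le (np r hpr1) (hp r) (by linarith [nq t (by rw [hsym]; exact B2)])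
    (by linarith [hq t]) (nr q (by rw [hsym]; exact B1)) (hr q) (by linarith [nt p (by rw [hsym]; exact B3)])
    (by linarith [ht p]) (by nlinarith) (by nlinarith) (by nlinarith) (by nlinarith)
  have hnn : 0 ≤ ∑ i, x i ^ 2 * y i ^ 2 := sum_nonneg fun i _ => by positivity
  have hn4 : 4 * ∑ i, x i ^ 2 * y i ^ 2 ≤ n * ∑ i, x i ^ 2 * y i ^ 2 :=
    mul_le_mul_of_nonneg_right hn hnn
  have e7 : (y r + - y t) ^ 2 = (y r - y t) ^ 2 := by ring
  have e8 : (x p + - x q) ^ 2 = (x p - x q) ^ 2 := by ring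
  rw [e7, e8] at hnum
  nlinarith

/-- graphs -/
theorem graphs {g : Fin n → Fin n → ℝ} (hsym : ∀ i j, g i j = g j i) (hg : ∀ i j, g i j = 0 ∨ g i j = 1)
    {x y : Fin n → ℝ} {α β : ℝ} (h : Opt g x α) (h' : Opt (fun i j => 1 - g i j) y β) : 1 ≤ α + β := by
  by_contra hcon
  push Not at hcon
  have hα0 : 0 ≤ α := by
    have h1 : 0 ≤ En g x := sum_nonneg fun i _ => sum_nonneg fun j _ => by
      rcases hg i j with h | h <;> rw [h] <;> positivity
    rw [h.en] at h1; linarith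
  have hβ0 : 0 ≤ β := by
    have h1 : 0 ≤ En (fun i j => 1 - g i j) y := sum_nonneg fun i _ => sum_nonneg fun j _ => by
      rcases hg i j with h | h <;> simp only [h] <;> norm_num <;> positivity
    rw [h'.en] at h1; linarith
  obtain ⟨p, hp, hp0⟩ := exists_max_pos h.sum h.norm
  obtain ⟨q, hq, hq0⟩ := exists_max_pos h.neg.sum h.neg.norm
  obtain ⟨r, hr, hr0⟩ := exists_max_pos h'.sum h'.norm
  obtain ⟨t, ht, ht0⟩ := exists_max_pos h'.neg.sum h'.neg.norm
  have hq' : ∀ j, x q ≤ x j := fun j => neg_le_neg_iff.1 (hq j)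
  have ht' : ∀ j, y t ≤ y j := fun j => neg_le_neg_iff.1 (ht j)
  rcases hg p r with h1 | h1
  · rcases hg p t with h2 | h2
    · -- impossible
      have hsym' : ∀ i j, (fun i j => 1 - g i j) i j = (fun i j => 1 - g i j) j i := by
        intro i j; simp only [hsym i j]
      have hg' : ∀ i j, (fun i j => 1 - g i j) i j = 0 ∨ (fun i j => 1 - g i j) i j = 1 := by
        intro i j
        rcases hg i j with h | h <;> simp [h]
      have a1 := nbr hsym' hg' h' hr (j := p) (by simp only [hsym r p, h1, sub_zero])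
      have a2 := nbr hsym' hg' h'.neg ht (j := p) (by simp only [hsym t p, h2, sub_zero])
      have b1 : 0 < (1 - β) * y r := mul_pos (by linarith) hr0
      have b2 : 0 < (1 - β) * - y t := mul_pos (by linarith) ht0
      linarith
    · exact core hsym hg h h'.neg hα0 hβ0 hcon hp hq' (r := t) (t := r) ht (fun j => neg_le_neg (hr j))
        hp0 (by linarith) ht0 (by linarith) h2
  · exact core hsym hg h h' hα0 hβ0 hcon hp hq' hr ht' hp0 (by linarith) hr0 (by linarith) h1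

/-- weighted graphs -/
theorem weighted (n : ℕ) (w : Fin n → Fin n → ℝ) (_hsym : ∀ i j, w i j = w j i)
    (hw : ∀ i j, 0 ≤ w i j ∧ w i j ≤ 1) (x y : Fin n → ℝ) (hx : ∑ i, x i = 0) (hy : ∑ i, y i = 0)
    (hx0 : x ≠ 0) (hy0 : y ≠ 0) :
    1 ≤ (∑ i, ∑ j, w i j * (x i - x j) ^ 2) / (2 * ∑ i, x i ^ 2)
      + (∑ i, ∑ j, (1 - w i j) * (y i - y j) ^ 2) / (2 * ∑ i, y i ^ 2) := by
  classical
  have hpos : ∀ z : Fin n → ℝ, z ≠ 0 → 0 < ∑ i, z i ^ 2 := by
    intro z hz
    obtain ⟨i, hi⟩ := Function.ne_iff.1 hz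
    have h1 : z i ^ 2 ≤ ∑ i, z i ^ 2 :=
      single_le_sum (f := fun i => z i ^ 2) (fun _ _ => sq_nonneg _) (mem_univ i)
    have h2 : 0 < z i ^ 2 := by
      have : z i ≠ 0 := by simpa using hi
      positivity
    linarith
  set Nx := ∑ i, x i ^ 2 with hNx
  set Ny := ∑ i, y i ^ 2 with hNy
  have hNx0 : 0 < Nx := hpos x hx0
  have hNy0 : 0 < Ny := hpos y hy0
  set g : Fin n → Fin n → ℝ := fun i j =>
    if (x i - x j) ^ 2 / (2 * Nx) ≤ (y i - y j) ^ 2 / (2 * Ny) then 1 else 0 with hg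
  have gsym : ∀ i j, g i j = g j i := by
    intro i j
    simp only [hg]
    rw [show (x i - x j) ^ 2 = (x j - x i) ^ 2 by ring, show (y i - y j) ^ 2 = (y j - y i) ^ 2 by ring]
  have g01 : ∀ i j, g i j = 0 ∨ g i j = 1 := by
    intro i j
    simp only [hg]
    split_ifs <;> simp
  obtain ⟨x', α, hα⟩ := exists_opt g x hx hx0
  obtain ⟨y', β, hβ⟩ := exists_opt (fun i j => 1 - g i j) y hy hy0
  have h1 := graphs gsym g01 hα hβ
  have h2 := hα.min x hx
  have h3 := hβ.min y hy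
  have h4 : α ≤ En g x / (2 * Nx) := by
    rw [le_div_iff₀ (by positivity)]; linarith
  have h5 : β ≤ En (fun i j => 1 - g i j) y / (2 * Ny) := by
    rw [le_div_iff₀ (by positivity)]; linarith
  have h6 : En g x / (2 * Nx) + En (fun i j => 1 - g i j) y / (2 * Ny) ≤
      (∑ i, ∑ j, w i j * (x i - x j) ^ 2) / (2 * Nx)
      + (∑ i, ∑ j, (1 - w i j) * (y i - y j) ^ 2) / (2 * Ny) := by
    unfold En
    rw [sum_div, sum_div, sum_div, sum_div, ← sum_add_distrib, ← sum_add_distrib]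
    apply sum_le_sum; intro i _
    rw [sum_div, sum_div, sum_div, sum_div, ← sum_add_distrib, ← sum_add_distrib]
    apply sum_le_sum; intro j _
    simp only [mul_div_assoc]
    obtain ⟨w0, w1⟩ := hw i j
    by_cases hc : (x i - x j) ^ 2 / (2 * Nx) ≤ (y i - y j) ^ 2 / (2 * Ny)
    · have : g i j = 1 := by simp only [hg]; rw [if_pos hc]
      rw [this]
      nlinarith [mul_nonneg (sub_nonneg.2 w1) (sub_nonneg.2 hc)]
    · have : g i j = 0 := by simp only [hg]; rw [if_neg hc]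
      rw [this]
      push Not at hc
      nlinarith [mul_nonneg w0 (sub_nonneg.2 hc.le)]
  linarith

end Pool.Agent.Q42.Spread
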