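import Mathlib

/-!
# Tesler matrices: the recursion, and lower bounds

Helper file for `MP_1235ca_co`.
-/

set_option autoImplicit false

namespace Pool.Agent.Q42.Tesler

open Finset

/-- Tesler matrices of size `n` with hook sums `α`: upper triangular matrices of natural numbers such
that for every `i` the sum of row `i` from the diagonal rightwards is `α i` plus the sum of the part
of column `i` strictly above the diagonal. -/
def IsTesler {n : ℕ} (α : Fin n → ℕ) (A : Matrix (Fin n) (Fin n) ℕ) : Prop :=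
  (∀ i j, j < i → A i j = 0) ∧
  ∀ i, ∑ j ∈ univ.filter (fun j => i ≤ j), A i j = α i + ∑ j ∈ univ.filter (fun j => j < i), A j i

/-- the type of Tesler matrices with hook sums `α` -/
def Tes {n : ℕ} (α : Fin n → ℕ) : Type := {A : Matrix (Fin n) (Fin n) ℕ // IsTesler α A}

/-- the number of Tesler matrices with hook sums `α` -/
noncomputable def T {n : ℕ} (α : Fin n → ℕ) : ℕ := Nat.card (Tes α)

lemma isTesler_iff {n : ℕ} (α : Fin n → ℕ) (A : Matrix (Fin n) (Fin n) ℕ) :
    IsTesler α A ↔ (∀ i j, j < i → A i j = 0) ∧ ∀ i, ∑ j, A i j + A i i = α i + ∑ j, A j i := by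
  unfold IsTesler
  refine and_congr_right fun hz => forall_congr' fun i => ?_
  have h1 : ∑ j, A i j = ∑ j ∈ univ.filter (fun j => i ≤ j), A i j := by
    rw [sum_filter]
    apply sum_congr rfl
    intro j _
    split_ifs with h
    · rfl
    · exact hz i j (not_le.1 h)
  have h2 : ∑ j, A j i = ∑ j ∈ univ.filter (fun j => j < i), A j i + A i i := by
    rw [sum_filter]
    rw [← Finset.add_sum_erase univ (fun j => A j i) (mem_univ i)]
    rw [← Finset.add_sum_erase univ (fun j => if j < i then A j i else 0) (mem_univ i)]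
    have h3 : ∑ j ∈ univ.erase i, A j i = ∑ j ∈ univ.erase i, if j < i then A j i else 0 := by
      apply sum_congr rfl
      intro j hj
      rw [mem_erase] at hj
      split_ifs with h
      · rfl
      · exact hz j i (lt_of_le_of_ne (not_lt.1 h) hj.1.symm)
    rw [h3, if_neg (lt_irrefl i)]
    omega
  rw [h1, h2]
  omega

lemma sum_diag {n : ℕ} {α : Fin n → ℕ} (A : Tes α) : ∑ i, A.1 i i = ∑ i, α i := by
  have h := ((isTesler_iff α A.1).1 A.2).2
  have h1 : ∑ i, (∑ j, A.1 i j + A.1 i i) = ∑ i, (α i + ∑ j, A.1 j i) := sum_congr rfl fun i _ => h i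
  rw [sum_add_distrib, sum_add_distrib] at h1
  have h2 : ∑ i, ∑ j, A.1 j i = ∑ i, ∑ j, A.1 i j := sum_comm
  omega

/-- the matrix of size `n + 1` obtained from `A` by splitting the diagonal entries -/
def ext {n : ℕ} (c : ℕ) (A : Matrix (Fin n) (Fin n) ℕ) (a : Fin n → ℕ) :
    Matrix (Fin (n + 1)) (Fin (n + 1)) ℕ := fun i j =>
  Fin.lastCases (motive := fun _ => ℕ)
    (Fin.lastCases (motive := fun _ => ℕ) (c + ∑ i, (A i i - a i)) (fun _ => 0) j)
    (fun i => Fin.lastCases (motive := fun _ => ℕ) (A i i - a i)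
      (fun j => if i = j then a i else A i j) j) i

lemma ext_ll {n : ℕ} (c : ℕ) (A : Matrix (Fin n) (Fin n) ℕ) (a : Fin n → ℕ) :
    ext c A a (Fin.last n) (Fin.last n) = c + ∑ i, (A i i - a i) := by simp [ext]

lemma ext_lc {n : ℕ} (c : ℕ) (A : Matrix (Fin n) (Fin n) ℕ) (a : Fin n → ℕ) (j : Fin n) :
    ext c A a (Fin.last n) j.castSucc = 0 := by simp [ext]

lemma ext_cl {n : ℕ} (c : ℕ) (A : Matrix (Fin n) (Fin n) ℕ) (a : Fin n → ℕ) (i : Fin n) :
    ext c A a i.castSucc (Fin.last n) = A i i - a i := by simp [ext]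

lemma ext_cc {n : ℕ} (c : ℕ) (A : Matrix (Fin n) (Fin n) ℕ) (a : Fin n → ℕ) (i j : Fin n) :
    ext c A a i.castSucc j.castSucc = if i = j then a i else A i j := by simp [ext]

lemma sum_ite_row {n : ℕ} (f : Fin n → ℕ) (x : ℕ) (i : Fin n) :
    (∑ j, if i = j then x else f j) + f i = ∑ j, f j + x := by
  rw [← Finset.add_sum_erase univ (fun j => if i = j then x else f j) (mem_univ i),
    ← Finset.add_sum_erase univ f (mem_univ i)]
  have h3 : ∑ j ∈ univ.erase i, (if i = j then x else f j) = ∑ j ∈ univ.erase i, f j := by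
    apply sum_congr rfl
    intro j hj
    rw [mem_erase] at hj
    rw [if_neg (Ne.symm hj.1)]
  rw [h3]
  simp only [if_true]
  omega

lemma sum_ite_col {n : ℕ} (f : Fin n → ℕ) (a : Fin n → ℕ) (i : Fin n) :
    (∑ j, if j = i then a j else f j) + f i = ∑ j, f j + a i := by
  have h : (∑ j, if j = i then a j else f j) = ∑ j, if i = j then a i else f j := by
    apply sum_congr rfl
    intro j _
    by_cases h : j = i
    · subst h
      simp
    · rw [if_neg h, if_neg (Ne.symm h)]
  rw [h]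
  exact sum_ite_row f (a i) i

lemma ext_isTesler {n : ℕ} {α : Fin n → ℕ} (c : ℕ) {A : Matrix (Fin n) (Fin n) ℕ}
    (hA : IsTesler α A) (a : Fin n → ℕ) (ha : ∀ i, a i ≤ A i i) :
    IsTesler (Fin.snoc (α := fun _ => ℕ) α c : Fin (n + 1) → ℕ) (ext c A a) := by
  rw [isTesler_iff] at hA ⊢
  refine ⟨fun i j hij => ?_, fun i => ?_⟩
  · induction i using Fin.lastCases with
    | last =>
      induction j using Fin.lastCases with
      | last => exact absurd hij (lt_irrefl _)
      | cast j => exact ext_lc _ _ _ _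
    | cast i =>
      induction j using Fin.lastCases with
      | last => exact absurd hij (not_lt.2 (Fin.le_last _))
      | cast j =>
        rw [ext_cc, if_neg]
        · exact hA.1 i j (by simpa using hij)
        · rintro rfl
          exact lt_irrefl _ hij
  · induction i using Fin.lastCases with
    | last =>
      rw [Fin.sum_univ_castSucc, Fin.sum_univ_castSucc, Fin.snoc_last (α := fun _ => ℕ)]
      simp only [ext_ll, ext_lc, ext_cl, sum_const_zero]
      omega
    | cast i =>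
      rw [Fin.sum_univ_castSucc, Fin.sum_univ_castSucc, Fin.snoc_castSucc (α := fun _ => ℕ)]
      simp only [ext_lc, ext_cl, ext_cc]
      have h1 := sum_ite_row (fun j => A i j) (a i) i
      have h2 := sum_ite_col (fun j => A j i) a i
      have h3 := hA.2 i
      have h4 := ha i
      simp only [if_true]
      beta_reduce at h1 h2
      omega

/-- the bijection behind the recursion -/
noncomputable def equiv {n : ℕ} (α : Fin n → ℕ) (c : ℕ) :
    (Σ A : Tes α, (i : Fin n) → Fin (A.1 i i + 1)) ≃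
      Tes (Fin.snoc (α := fun _ => ℕ) α c : Fin (n + 1) → ℕ) := by
  refine Equiv.ofBijective (fun p => ⟨ext c p.1.1 (fun i => (p.2 i : ℕ)),
    ext_isTesler c p.1.2 _ (fun i => Nat.lt_succ_iff.1 (p.2 i).2)⟩) ⟨?_, ?_⟩
  · rintro ⟨⟨A, hA⟩, a⟩ ⟨⟨B, hB⟩, b⟩ h
    have h0 : ext c A (fun i => (a i : ℕ)) = ext c B (fun i => (b i : ℕ)) := congrArg Subtype.val h
    have h1 : ∀ i, (a i : ℕ) = b i := by
      intro i
      have := congrFun (congrFun h0 i.castSucc) i.castSucc
      rw [ext_cc, ext_cc, if_pos rfl, if_pos rfl] at this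
      exact this
    have h2 : A = B := by
      funext i j
      by_cases hij : i = j
      · subst hij
        have h3 := congrFun (congrFun h0 i.castSucc) (Fin.last n)
        rw [ext_cl, ext_cl] at h3
        have h4 := Nat.lt_succ_iff.1 (a i).2
        have h5 := Nat.lt_succ_iff.1 (b i).2
        have h6 := h1 i
        change (a i : ℕ) ≤ A i i at h4
        change (b i : ℕ) ≤ B i i at h5
        omega
      · have := congrFun (congrFun h0 i.castSucc) j.castSucc
        rw [ext_cc, ext_cc, if_neg hij, if_neg hij] at this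
        exact this
    subst h2
    have h3 : a = b := by
      funext i
      exact Fin.ext (h1 i)
    subst h3
    rfl
  · rintro ⟨B, hB⟩
    have hB' := (isTesler_iff _ _).1 hB
    set A : Matrix (Fin n) (Fin n) ℕ := fun i j =>
      if i = j then B i.castSucc i.castSucc + B i.castSucc (Fin.last n)
      else B i.castSucc j.castSucc with hAdef
    have hA : IsTesler α A := by
      rw [isTesler_iff]
      refine ⟨fun i j hij => ?_, fun i => ?_⟩
      · rw [hAdef]
        beta_reduce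
        rw [if_neg (by rintro rfl; exact lt_irrefl _ hij)]
        exact hB'.1 _ _ (by simpa using hij)
      · have h1 := hB'.2 i.castSucc
        rw [Fin.sum_univ_castSucc, Fin.sum_univ_castSucc, Fin.snoc_castSucc (α := fun _ => ℕ)] at h1
        have h2 : B (Fin.last n) i.castSucc = 0 := hB'.1 _ _ (Fin.castSucc_lt_last i)
        have h3 := sum_ite_row (fun j => B i.castSucc j.castSucc)
          (B i.castSucc i.castSucc + B i.castSucc (Fin.last n)) i
        have h4 := sum_ite_col (fun j => B j.castSucc i.castSucc)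
          (fun j => B j.castSucc j.castSucc + B j.castSucc (Fin.last n)) i
        beta_reduce at h3 h4
        have h5 : A i i = B i.castSucc i.castSucc + B i.castSucc (Fin.last n) := by
          rw [hAdef]
          beta_reduce
          rw [if_pos rfl]
        have h6 : ∑ j, A i j = ∑ j, if i = j then
            B i.castSucc i.castSucc + B i.castSucc (Fin.last n) else B i.castSucc j.castSucc := rfl
        have h7 : ∑ j, A j i = ∑ j, if j = i then
            B j.castSucc j.castSucc + B j.castSucc (Fin.last n) else B j.castSucc i.castSucc := rfl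
        rw [h5, h6, h7]
        omega
    have hAii : ∀ i, A i i = B i.castSucc i.castSucc + B i.castSucc (Fin.last n) := by
      intro i
      rw [hAdef]
      beta_reduce
      rw [if_pos rfl]
    refine ⟨⟨⟨A, hA⟩, fun i => ⟨B i.castSucc i.castSucc, ?_⟩⟩, ?_⟩
    · change B i.castSucc i.castSucc < A i i + 1
      rw [hAii]
      omega
    · apply Subtype.ext
      funext i j
      change ext c A (fun i => B i.castSucc i.castSucc) i j = B i j
      induction i using Fin.lastCases with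
      | last =>
        induction j using Fin.lastCases with
        | last =>
          rw [ext_ll]
          have h1 := hB'.2 (Fin.last n)
          rw [Fin.sum_univ_castSucc, Fin.sum_univ_castSucc, Fin.snoc_last (α := fun _ => ℕ)] at h1
          have h2 : ∑ i : Fin n, B (Fin.last n) i.castSucc = 0 :=
            sum_eq_zero fun i _ => hB'.1 _ _ (Fin.castSucc_lt_last i)
          have h3 : ∑ i, (A i i - B i.castSucc i.castSucc) =
              ∑ i : Fin n, B i.castSucc (Fin.last n) := by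
            apply sum_congr rfl
            intro i _
            rw [hAii]
            omega
          rw [h3]
          omega
        | cast j =>
          rw [ext_lc]
          exact (hB'.1 _ _ (Fin.castSucc_lt_last j)).symm
      | cast i =>
        induction j using Fin.lastCases with
        | last =>
          rw [ext_cl, hAii]
          omega
        | cast j =>
          rw [ext_cc]
          split_ifs with h
          · rw [h]
          · rw [hAdef]
            beta_reduce
            rw [if_neg h]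

lemma equiv_diag {n : ℕ} (α : Fin n → ℕ) (c : ℕ) (A : Tes α) (a : (i : Fin n) → Fin (A.1 i i + 1)) :
    (fun i => (equiv α c ⟨A, a⟩).1 i i) = (Fin.snoc (α := fun _ => ℕ) (fun i => (a i : ℕ))
      (c + ∑ i, (A.1 i i - (a i : ℕ))) : Fin (n + 1) → ℕ) := by
  funext i
  change ext c A.1 (fun i => (a i : ℕ)) i i = _
  induction i using Fin.lastCases with
  | last => rw [ext_ll, Fin.snoc_last (α := fun _ => ℕ)]
  | cast i => rw [ext_cc, if_pos rfl, Fin.snoc_castSucc (α := fun _ => ℕ)]

instance finite_tes : ∀ {n : ℕ} (α : Fin n → ℕ), Finite (Tes α)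
  | 0, α => by
    have : Subsingleton (Tes α) := ⟨fun A B => Subtype.ext (by funext i; exact i.elim0)⟩
    infer_instance
  | n + 1, α => by
    have h1 : Finite (Tes (Fin.init (α := fun _ => ℕ) α)) := finite_tes _
    have h2 : (Fin.snoc (α := fun _ => ℕ) (Fin.init (α := fun _ => ℕ) α) (α (Fin.last n)) :
        Fin (n + 1) → ℕ) = α := Fin.snoc_init_self α
    have h3 := Finite.of_equiv _ (equiv (Fin.init (α := fun _ => ℕ) α) (α (Fin.last n)))
    rwa [h2] at h3

noncomputable instance fintype_tes {n : ℕ} (α : Fin n → ℕ) : Fintype (Tes α) := Fintype.ofFinite _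

/-- the diagonal, as a list in reversed order -/
def rl {n : ℕ} (d : Fin n → ℕ) : List ℕ := (List.ofFn d).reverse

lemma rl_snoc {n : ℕ} (d : Fin n → ℕ) (x : ℕ) :
    rl (Fin.snoc (α := fun _ => ℕ) d x : Fin (n + 1) → ℕ) = x :: rl d := by
  unfold rl
  rw [List.ofFn_succ']
  simp [Fin.snoc_castSucc (α := fun _ => ℕ), Fin.snoc_last (α := fun _ => ℕ)]

/-- the sum of `φ` over the diagonals of the Tesler matrices with hook sums `α` -/
noncomputable def S {n : ℕ} (α : Fin n → ℕ) (φ : List ℕ → ℕ) : ℕ :=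
  ∑ A : Tes α, φ (rl fun i => A.1 i i)

lemma T_eq_S {n : ℕ} (α : Fin n → ℕ) : T α = S α fun _ => 1 := by
  unfold T S
  rw [Nat.card_eq_fintype_card]
  simp

def sumTo (f : ℕ → ℕ) : ℕ → ℕ
  | 0 => f 0
  | n + 1 => sumTo f n + f (n + 1)

lemma sumTo_eq (f : ℕ → ℕ) : ∀ n, sumTo f n = ∑ a ∈ range (n + 1), f a
  | 0 => by simp [sumTo]
  | n + 1 => by rw [sumTo, sumTo_eq f n, sum_range_succ _ (n + 1)]

/-- sum of `κ a (∑ (b - a))` over all lists `a ≤ b` -/
def ch : List ℕ → (List ℕ → ℕ → ℕ) → ℕ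
  | [], κ => κ [] 0
  | x :: t, κ => sumTo (fun a => ch t (fun l s => κ (a :: l) (x - a + s))) x

/-- one step of the recursion -/
def step (c : ℕ) (φ : List ℕ → ℕ) (b : List ℕ) : ℕ := ch b fun l s => φ ((c + s) :: l)

lemma sum_pi_eq_ch : ∀ {n : ℕ} (d : Fin n → ℕ) (κ : List ℕ → ℕ → ℕ),
    ∑ a : (i : Fin n) → Fin (d i + 1), κ (rl fun i => (a i : ℕ)) (∑ i, (d i - (a i : ℕ))) =
      ch (rl d) κ
  | 0, d, κ => by
    rw [Fintype.sum_unique]
    simp [rl, ch]
  | n + 1, d, κ => by
    have h1 : (Fin.snoc (α := fun _ => ℕ) (fun i : Fin n => d i.castSucc) (d (Fin.last n)) :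
        Fin (n + 1) → ℕ) = d := Fin.snoc_init_self d
    have h2 : rl d = d (Fin.last n) :: rl (fun i : Fin n => d i.castSucc) := by
      conv_lhs => rw [← h1]
      rw [rl_snoc]
    rw [h2, ch, sumTo_eq]
    have h3 : ∀ x : ℕ, ch (rl fun i : Fin n => d i.castSucc)
        (fun l s => κ (x :: l) (d (Fin.last n) - x + s)) =
        ∑ a : (i : Fin n) → Fin (d i.castSucc + 1), κ (x :: rl fun i => (a i : ℕ))
          (d (Fin.last n) - x + ∑ i, (d i.castSucc - (a i : ℕ))) := by
      intro x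
      rw [← sum_pi_eq_ch]
    simp_rw [h3]
    rw [Finset.sum_range, ← Fintype.sum_prod_type']
    refine (Fintype.sum_equiv (Fin.snocEquiv fun i : Fin (n + 1) => Fin (d i + 1)) _ _ ?_).symm
    rintro ⟨x, a⟩
    have h4 : (fun i => (((Fin.snocEquiv fun i : Fin (n + 1) => Fin (d i + 1)) (x, a)) i : ℕ)) =
        (Fin.snoc (α := fun _ => ℕ) (fun i : Fin n => (a i : ℕ)) (x : ℕ) : Fin (n + 1) → ℕ) := by
      funext i
      induction i using Fin.lastCases with
      | last => simp [Fin.snocEquiv, Fin.snoc_last (α := fun _ => ℕ)]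
      | cast i => simp [Fin.snocEquiv, Fin.snoc_castSucc (α := fun _ => ℕ)]
    rw [h4, rl_snoc, Fin.sum_univ_castSucc]
    have h5 : ∀ i : Fin n, (((Fin.snocEquiv fun i : Fin (n + 1) => Fin (d i + 1)) (x, a))
        i.castSucc : ℕ) = a i := by
      intro i
      have := congrFun h4 i.castSucc
      rwa [Fin.snoc_castSucc (α := fun _ => ℕ)] at this
    have h6 : (((Fin.snocEquiv fun i : Fin (n + 1) => Fin (d i + 1)) (x, a))
        (Fin.last n) : ℕ) = x := by
      have := congrFun h4 (Fin.last n)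
      rwa [Fin.snoc_last (α := fun _ => ℕ)] at this
    simp_rw [h5]
    rw [h6, add_comm (∑ i : Fin n, (d i.castSucc - (a i : ℕ)))]

/-- the recursion -/
lemma S_snoc {n : ℕ} (α : Fin n → ℕ) (c : ℕ) (φ : List ℕ → ℕ) :
    S (Fin.snoc (α := fun _ => ℕ) α c : Fin (n + 1) → ℕ) φ = S α (step c φ) := by
  unfold S
  rw [← Fintype.sum_equiv (equiv α c) (fun p => φ (rl fun i => (equiv α c p).1 i i)) _
    (fun p => rfl)]
  rw [Fintype.sum_sigma]
  apply sum_congr rfl
  intro A _
  unfold step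
  rw [← sum_pi_eq_ch]
  apply sum_congr rfl
  intro a _
  rw [equiv_diag, rl_snoc]

/-! ### estimates -/

def P : List ℕ → ℕ
  | [] => 1
  | x :: t => (x + 1) * P t

def G : List ℕ → ℕ
  | [] => 1
  | x :: t => (x + 1) * (x + 2) / 2 * G t

lemma two_mul_half (x : ℕ) : 2 * ((x + 1) * (x + 2) / 2) = (x + 1) * (x + 2) := by
  apply Nat.mul_div_cancel'
  have h := Nat.even_mul_succ_self (x + 1)
  exact h.two_dvd

lemma ch_one : ∀ b : List ℕ, ch b (fun _ _ => 1) = P b
  | [] => rfl
  | x :: t => by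
    rw [ch, P, sumTo_eq]
    simp only [ch_one t]
    simp

lemma sumTo_mul (f : ℕ → ℕ) (c : ℕ) : ∀ n, sumTo (fun a => c * f a) n = c * sumTo f n
  | 0 => rfl
  | n + 1 => by rw [sumTo, sumTo, sumTo_mul f c n, mul_add]

lemma ch_mul : ∀ (b : List ℕ) (κ : List ℕ → ℕ → ℕ) (c : ℕ),
    ch b (fun l s => c * κ l s) = c * ch b κ
  | [], κ, c => rfl
  | x :: t, κ, c => by
    rw [ch, ch]
    rw [← sumTo_mul]
    congr 1
    funext a
    rw [← ch_mul]

lemma sum_lin (v : ℕ) : ∀ x : ℕ, 2 * ∑ a ∈ range (x + 1), (a + 1) * (v + 3 * (x - a)) =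
    (x + 1) * (x + 2) * (v + x) := by
  intro x
  induction x generalizing v with
  | zero => simp
  | succ x ih =>
    rw [sum_range_succ]
    have h : ∑ a ∈ range (x + 1), (a + 1) * (v + 3 * (x + 1 - a)) =
        ∑ a ∈ range (x + 1), (a + 1) * (v + 3 + 3 * (x - a)) := by
      apply sum_congr rfl
      intro a ha
      rw [mem_range] at ha
      congr 1
      omega
    rw [h, mul_add, ih (v + 3)]
    have : x + 1 - (x + 1) = 0 := by omega
    rw [this]
    ring

lemma ch_P : ∀ (b : List ℕ) (u : ℕ), 3 * ch b (fun l s => P l * (u + s)) = G b * (3 * u + b.sum)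
  | [], u => by simp [ch, P, G]; 
  | x :: t, u => by
    rw [ch, sumTo_eq, mul_sum]
    have h : ∀ a ∈ range (x + 1), 3 * ch t (fun l s => P (a :: l) * (u + (x - a + s))) =
        G t * ((a + 1) * ((3 * u + t.sum) + 3 * (x - a))) := by
      intro a ha
      have h1 : (fun l s => P (a :: l) * (u + (x - a + s))) =
          fun l s => (a + 1) * (P l * ((u + (x - a)) + s)) := by
        funext l s
        rw [P]
        ring
      rw [h1, ch_mul, ← mul_assoc, mul_comm 3, mul_assoc, ch_P t]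
      ring
    rw [sum_congr rfl h, ← mul_sum]
    have h2 := sum_lin (3 * u + t.sum) x
    have h3 := two_mul_half x
    rw [G, List.sum_cons]
    have h4 : 2 * (G t * ∑ a ∈ range (x + 1), (a + 1) * (3 * u + t.sum + 3 * (x - a))) =
        2 * ((x + 1) * (x + 2) / 2 * G t * (3 * u + (x + t.sum))) := by
      calc 2 * (G t * ∑ a ∈ range (x + 1), (a + 1) * (3 * u + t.sum + 3 * (x - a))) =
          G t * (2 * ∑ a ∈ range (x + 1), (a + 1) * (3 * u + t.sum + 3 * (x - a))) := by ring
        _ = G t * ((2 * ((x + 1) * (x + 2) / 2)) * (3 * u + t.sum + x)) := by rw [h2, h3]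
        _ = _ := by ring
    omega

lemma P_ge : ∀ b : List ℕ, b.sum + 1 ≤ P b
  | [] => by simp [P]
  | x :: t => by
    have h := P_ge t
    rw [P, List.sum_cons]
    have h1 : (x + 1) * (t.sum + 1) ≤ (x + 1) * P t := Nat.mul_le_mul_left _ h
    have h2 : (x + 1) * (t.sum + 1) = x * t.sum + x + t.sum + 1 := by ring
    have h3 : 0 ≤ x * t.sum := Nat.zero_le _
    omega

lemma P_le_G : ∀ b : List ℕ, P b * (2 + b.sum) ≤ 2 * G b
  | [] => by simp [P, G]
  | x :: t => by
    have h := P_le_G t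
    have h3 := two_mul_half x
    rw [P, G, List.sum_cons]
    have h4 : 2 * (2 * ((x + 1) * (x + 2) / 2 * G t)) = (x + 1) * (x + 2) * (2 * G t) := by
      calc 2 * (2 * ((x + 1) * (x + 2) / 2 * G t)) =
          (2 * ((x + 1) * (x + 2) / 2)) * (2 * G t) := by ring
        _ = _ := by rw [h3]
    have h5 : 2 * ((x + 1) * P t * (2 + (x + t.sum))) ≤ (x + 1) * (x + 2) * (P t * (2 + t.sum)) := by
      have : 2 * (2 + (x + t.sum)) ≤ (x + 2) * (2 + t.sum) := by
        have h7 : (x + 2) * (2 + t.sum) = 2 * (2 + (x + t.sum)) + x * t.sum := by ring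
        omega
      calc 2 * ((x + 1) * P t * (2 + (x + t.sum))) = (x + 1) * P t * (2 * (2 + (x + t.sum))) := by ring
        _ ≤ (x + 1) * P t * ((x + 2) * (2 + t.sum)) := Nat.mul_le_mul_left _ this
        _ = _ := by ring
    have h6 : (x + 1) * (x + 2) * (P t * (2 + t.sum)) ≤ (x + 1) * (x + 2) * (2 * G t) :=
      Nat.mul_le_mul_left _ h
    omega

lemma rl_sum {n : ℕ} (d : Fin n → ℕ) : (rl d).sum = ∑ i, d i := by
  unfold rl
  rw [List.sum_reverse, List.sum_ofFn]

lemma S_congr {n : ℕ} (α : Fin n → ℕ) {φ ψ : List ℕ → ℕ}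
    (h : ∀ b : List ℕ, b.sum = ∑ i, α i → φ b = ψ b) : S α φ = S α ψ := by
  unfold S
  apply sum_congr rfl
  intro A _
  apply h
  rw [rl_sum, sum_diag]

lemma S_le {n : ℕ} (α : Fin n → ℕ) {φ ψ : List ℕ → ℕ}
    (h : ∀ b : List ℕ, b.sum = ∑ i, α i → φ b ≤ ψ b) : S α φ ≤ S α ψ := by
  unfold S
  apply sum_le_sum
  intro A _
  apply h
  rw [rl_sum, sum_diag]

lemma S_mul {n : ℕ} (α : Fin n → ℕ) (φ : List ℕ → ℕ) (c : ℕ) :
    S α (fun b => c * φ b) = c * S α φ := by
  unfold S
  rw [mul_sum]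

lemma T_snoc {n : ℕ} (α : Fin n → ℕ) (c : ℕ) :
    T (Fin.snoc (α := fun _ => ℕ) α c : Fin (n + 1) → ℕ) = S α P := by
  rw [T_eq_S, S_snoc]
  apply S_congr
  intro b _
  unfold step
  exact ch_one b

/-- one more hook sum -/
lemma T_snoc_ge {n : ℕ} (α : Fin n → ℕ) (c : ℕ) :
    (∑ i, α i + 1) * T α ≤ T (Fin.snoc (α := fun _ => ℕ) α c : Fin (n + 1) → ℕ) := by
  rw [T_snoc, T_eq_S, ← S_mul]
  apply S_le
  intro b hb
  rw [mul_one, ← hb]
  exact P_ge b

lemma T_two {n : ℕ} (α : Fin n → ℕ) (c : ℕ) :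
    3 * T (Fin.snoc (α := fun _ => ℕ) (Fin.snoc (α := fun _ => ℕ) α 1 : Fin (n + 1) → ℕ) c :
      Fin (n + 2) → ℕ) = (6 + ∑ i, α i) * S α G := by
  rw [T_snoc, S_snoc, ← S_mul, ← S_mul]
  apply S_congr
  intro b hb
  unfold step
  have h := ch_P b 2
  have h1 : (fun l s => P ((1 + s) :: l)) = fun l s => P l * (2 + s) := by
    funext l s
    rw [P]
    ring
  rw [h1, h, hb]
  ring

/-- the second lower bound -/
lemma T_two_ge {n : ℕ} (α : Fin n → ℕ) (c : ℕ) :
    (6 + ∑ i, α i) * (2 + ∑ i, α i) *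
      T (Fin.snoc (α := fun _ => ℕ) α 1 : Fin (n + 1) → ℕ) ≤
    6 * T (Fin.snoc (α := fun _ => ℕ) (Fin.snoc (α := fun _ => ℕ) α 1 : Fin (n + 1) → ℕ) c :
      Fin (n + 2) → ℕ) := by
  have h1 := T_two α c
  have h2 : (2 + ∑ i, α i) * S α P ≤ 2 * S α G := by
    rw [← S_mul, ← S_mul]
    apply S_le
    intro b hb
    rw [← hb, mul_comm]
    exact P_le_G b
  rw [T_snoc α 1]
  calc (6 + ∑ i, α i) * (2 + ∑ i, α i) * S α P = (6 + ∑ i, α i) * ((2 + ∑ i, α i) * S α P) := by ring
    _ ≤ (6 + ∑ i, α i) * (2 * S α G) := Nat.mul_le_mul_left _ h2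
    _ = 2 * ((6 + ∑ i, α i) * S α G) := by ring
    _ = 2 * (3 * _) := by rw [h1]
    _ = _ := by ring

/-- hook sums `(1^k, 0^(n-k))` -/
def hook (n k : ℕ) : Fin n → ℕ := fun i => if (i : ℕ) < k then 1 else 0

lemma hook_succ (n k : ℕ) : hook (n + 1) k =
    (Fin.snoc (α := fun _ => ℕ) (hook n k) (if n < k then 1 else 0) : Fin (n + 1) → ℕ) := by
  funext i
  induction i using Fin.lastCases with
  | last => rw [Fin.snoc_last (α := fun _ => ℕ)]; simp [hook]
  | cast i => rw [Fin.snoc_castSucc (α := fun _ => ℕ)]; simp [hook]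

lemma sum_hook {n k : ℕ} (h : k ≤ n) : ∑ i, hook n k i = k := by
  unfold hook
  rw [← card_filter, Fin.card_filter_val_lt]
  omega

lemma hook_congr {n k k' : ℕ} (h : n ≤ k) (h' : n ≤ k') : hook n k = hook n k' := by
  funext i
  unfold hook
  have := i.2
  rw [if_pos (by omega), if_pos (by omega)]

lemma hook_one {n : ℕ} : hook (n + 1) (n + 1) =
    (Fin.snoc (α := fun _ => ℕ) (hook n n) 1 : Fin (n + 1) → ℕ) := by
  rw [hook_succ, hook_congr (Nat.le_succ n) le_rfl, if_pos (Nat.lt_succ_self n)]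

lemma S_ones (φ : List ℕ → ℕ) : ∀ n, S (hook n n) φ = ((step 1)^[n] φ) [] := by
  intro n
  induction n generalizing φ with
  | zero =>
    unfold S
    have h1 : Nonempty (Tes (hook 0 0)) := ⟨⟨fun i => i.elim0, fun i => i.elim0, fun i => i.elim0⟩⟩
    have h2 : Subsingleton (Tes (hook 0 0)) :=
      ⟨fun A B => Subtype.ext (by funext i; exact i.elim0)⟩
    obtain ⟨A₀⟩ := h1
    rw [Fintype.sum_eq_single A₀ (fun A hA => absurd (Subsingleton.elim A A₀) hA)]
    simp [rl]
  | succ n ih =>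
    rw [hook_one, S_snoc, ih, Function.iterate_succ_apply]

set_option maxRecDepth 100000 in
lemma comp7 : 26000000 ≤ ((step 1)^[7] G) [] := by decide +kernel

lemma T_nine : 112000000 ≤ T (hook 9 9) := by
  have h1 : hook 9 9 = (Fin.snoc (α := fun _ => ℕ)
      (Fin.snoc (α := fun _ => ℕ) (hook 7 7) 1 : Fin 8 → ℕ) 1 : Fin 9 → ℕ) := by
    rw [hook_one, hook_one]
  have h2 := T_two (hook 7 7) 1
  rw [← h1, sum_hook le_rfl, S_ones] at h2
  have h3 := comp7
  omega

lemma ratio (k : ℕ) : (6 + k) * (2 + k) * T (hook (k + 1) (k + 1)) ≤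
    6 * T (hook (k + 2) (k + 2)) := by
  have h1 : hook (k + 2) (k + 2) = (Fin.snoc (α := fun _ => ℕ)
      (Fin.snoc (α := fun _ => ℕ) (hook k k) 1 : Fin (k + 1) → ℕ) 1 : Fin (k + 2) → ℕ) := by
    rw [hook_one, hook_one]
  have h2 := T_two_ge (hook k k) 1
  rw [← h1, ← hook_one, sum_hook le_rfl] at h2
  exact h2

lemma real_bound (k : ℕ) (hk : 11 ≤ k) : 6 * (k + 2) ^ k ≤ (k + 5) * (k + 1) ^ k := by
  rcases eq_or_lt_of_le hk with rfl | hk
  · norm_num
  have h1 : ((k : ℝ) + 2) ^ k ≤ Real.exp 1 * ((k : ℝ) + 1) ^ k := by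
    have h2 : ((k : ℝ) + 2) = (1 + 1 / ((k : ℝ) + 1)) * ((k : ℝ) + 1) := by
      field_simp
      ring
    rw [h2, mul_pow]
    apply mul_le_mul_of_nonneg_right _ (by positivity)
    have h3 : 1 + 1 / ((k : ℝ) + 1) ≤ Real.exp (1 / ((k : ℝ) + 1)) := by
      have := Real.add_one_le_exp (1 / ((k : ℝ) + 1))
      linarith
    calc (1 + 1 / ((k : ℝ) + 1)) ^ k ≤ Real.exp (1 / ((k : ℝ) + 1)) ^ k :=
          pow_le_pow_left₀ (by positivity) h3 k
      _ = Real.exp (k * (1 / ((k : ℝ) + 1))) := by rw [Real.exp_nat_mul]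
      _ ≤ Real.exp 1 := by
        apply Real.exp_le_exp.2
        rw [mul_one_div, div_le_one (by positivity)]
        linarith
  have h2 : (6 : ℝ) * ((k : ℝ) + 2) ^ k ≤ ((k : ℝ) + 5) * ((k : ℝ) + 1) ^ k := by
    have h3 := Real.exp_one_lt_d9
    have h4 : (12 : ℝ) ≤ k := by exact_mod_cast hk
    have h5 : 6 * Real.exp 1 ≤ (k : ℝ) + 5 := by linarith
    calc (6 : ℝ) * ((k : ℝ) + 2) ^ k ≤ 6 * (Real.exp 1 * ((k : ℝ) + 1) ^ k) := by linarith
      _ = (6 * Real.exp 1) * ((k : ℝ) + 1) ^ k := by ring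
      _ ≤ _ := mul_le_mul_of_nonneg_right h5 (by positivity)
  exact_mod_cast h2

lemma diagonal (k : ℕ) (hk : 11 ≤ k) : (k + 1) ^ (k - 1) ≤ T (hook k k) := by
  induction k, hk using Nat.le_induction with
  | base =>
    have h1 := T_nine
    have h2 : (6 + 8) * (2 + 8) * T (hook 9 9) ≤ 6 * T (hook 10 10) := ratio 8
    have h3 : (6 + 9) * (2 + 9) * T (hook 10 10) ≤ 6 * T (hook 11 11) := ratio 9
    norm_num
    omega
  | succ k hk ih =>
    obtain ⟨m, rfl⟩ : ∃ m, k = m + 1 := ⟨k - 1, by omega⟩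
    have h1 := ratio m
    have h2 := real_bound (m + 1) hk
    have e1 : m + 1 - 1 = m := rfl
    have e2 : m + 1 + 1 - 1 = m + 1 := rfl
    rw [e1] at ih
    rw [e2]
    have h3 : 6 * (m + 1 + 2) ^ (m + 1) ≤ 6 * T (hook (m + 2) (m + 2)) := by
      calc 6 * (m + 1 + 2) ^ (m + 1) ≤ (m + 1 + 5) * (m + 1 + 1) ^ (m + 1) := h2
        _ = (6 + m) * (2 + m) * (m + 1 + 1) ^ m := by ring
        _ ≤ (6 + m) * (2 + m) * T (hook (m + 1) (m + 1)) := Nat.mul_le_mul_left _ ih
        _ ≤ _ := h1
    exact Nat.le_of_mul_le_mul_left h3 (by norm_num)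

lemma main (n k : ℕ) (hk : 11 ≤ k) (hkn : k ≤ n) : (k + 1) ^ (n - 1) ≤ T (hook n k) := by
  induction n, hkn using Nat.le_induction with
  | base => exact diagonal k hk
  | succ n hn ih =>
    rw [hook_succ]
    refine le_trans ?_ (T_snoc_ge _ _)
    rw [sum_hook hn]
    have h : (k + 1) ^ (n + 1 - 1) = (k + 1) * (k + 1) ^ (n - 1) := by
      rw [← pow_succ']
      congr 1
      omega
    rw [h]
    exact Nat.mul_le_mul_left _ ih

end Pool.Agent.Q42.Tesler
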